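import Pool.Agent.H.MP_b28609_co.Gap.Stmt2
import Pool.Agent.H.MP_b28609_co.GenG
import Pool.Agent.H.MP_b28609_co.Iso

/-!
# MP_b28609_co, gap theorem, second part: assembly from the modules
-/

set_option autoImplicit false

namespace PatGap

open PatDom

/-- The final theorem from the modules. -/
theorem gap2_of (hF : FinBStmt) (hB : BaseStmt)
    (ind : ∀ {m n : ℕ}, Finset (Fin m × Fin n) → ℤ → ℤ → ℤ)
    (ind_dom : ∀ {m n : ℕ} (D : Finset (Fin m × Fin n)), Dom (grid m n) D → DomG m n (ind D))
    (ind_tot : ∀ {m n : ℕ} (D : Finset (Fin m × Fin n)), tot m n (ind D) = D.card)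
    (ind_mv : ∀ {m n : ℕ} (D D' : Finset (Fin m × Fin n)) (φ : D ≃ D')
      (_ : ∀ v : D, (grid m n).Adj (v : Fin m × Fin n) (φ v : Fin m × Fin n)),
      ∃ f : ℤ × ℤ → ℤ × ℤ, Mv (ind D) (ind D') f)
    (up : ∀ m n : ℕ, 1 ≤ m → 1 ≤ n → 5 * dnum (grid m n) ≤ (m + 2) * (n + 2))
    (succ : ∀ m n : ℕ, 1 ≤ n → dnum (grid m (n + 1)) ≤ dnum (grid m n) + m)
    (m n : ℕ) (hm : 1 ≤ m) (hn : 1 ≤ n) (hmn : 2 ≤ m * n) :
    min (((min m n : ℕ) : ℝ) / 5) (((max m n : ℕ) : ℝ) / 2400) - 104 ≤
        (pnum (grid m n) : ℝ) - dnum (grid m n) ∧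
      (pnum (grid m n) : ℝ) - dnum (grid m n) ≤ ((min m n : ℕ) : ℝ) / 5 + 51 := by
  classical
  -- it suffices to treat `m ≤ n`
  have key : ∀ m n : ℕ, 1 ≤ m → m ≤ n → 2 ≤ m * n →
      min ((m : ℝ) / 5) ((n : ℝ) / 2400) - 104 ≤ (pnum (grid m n) : ℝ) - dnum (grid m n) ∧
      (pnum (grid m n) : ℝ) - dnum (grid m n) ≤ ((m : ℕ) : ℝ) / 5 + 51 := by
    intro m n hm hle hmn
    have hn2 : 2 ≤ n := by
      by_contra h
      have h1 : n = 1 := by omega
      have h2 : m = 1 := by omega
      subst h1 h2
      omega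
    obtain ⟨⟨D, hD, hDc⟩, h1, h2⟩ := gen_main (SimpleGraph.pathGraph m) n hn2
    change Patrol (grid m n) D at hD
    change D.card = pnum (grid m n) at hDc
    change dnum (grid m n) ≤ pnum (grid m n) at h1
    change pnum (grid m n) ≤ dnum (grid m (n + 1)) at h2
    have h1' : (dnum (grid m n) : ℝ) ≤ pnum (grid m n) := by exact_mod_cast h1
    have hmin1 : min ((m : ℝ) / 5) ((n : ℝ) / 2400) ≤ (m : ℝ) / 5 := min_le_left _ _
    have hmin2 : min ((m : ℝ) / 5) ((n : ℝ) / 2400) ≤ (n : ℝ) / 2400 := min_le_right _ _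
    constructor
    · by_cases h60 : 60 ≤ m
      · by_cases h300 : 300 ≤ n
        · obtain ⟨hdom, D', hdom', φ, hφ⟩ := hD
          obtain ⟨f, hf⟩ := ind_mv D D' φ hφ
          have hcard : D.card = D'.card := by
            have := Fintype.card_congr φ
            rwa [Fintype.card_coe, Fintype.card_coe] at this
          have htot : tot m n (ind D) = tot m n (ind D') := by
            rw [ind_tot, ind_tot, hcard]
          have h3 := hF m n (ind D) (ind D') f (by exact_mod_cast h60)
            (by exact_mod_cast h300) (ind_dom D hdom) (ind_dom D' hdom') hf htot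
          rw [ind_tot, hDc] at h3
          have h4 := up m n hm (by omega)
          have h6 : (5 : ℤ) * dnum (grid m n) ≤ (m + 2) * (n + 2) := by exact_mod_cast h4
          rcases h3 with h3 | h3
          · have h7 : (m : ℤ) - 520 ≤ 5 * ((pnum (grid m n) : ℤ) - dnum (grid m n)) := by
              nlinarith
            have h8 : (m : ℝ) - 520 ≤ 5 * ((pnum (grid m n) : ℝ) - dnum (grid m n)) := by
              exact_mod_cast h7
            linarith
          · have h7 : ((n : ℤ) - 20) - 239 ≤ 240 * (((n : ℤ) - 20) / 240) := by omega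
            have h8 : (n : ℤ) - 259 - 240 * 504 ≤
                2400 * ((pnum (grid m n) : ℤ) - dnum (grid m n)) := by nlinarith
            have h9 : (n : ℝ) - 259 - 240 * 504 ≤
                2400 * ((pnum (grid m n) : ℝ) - dnum (grid m n)) := by exact_mod_cast h8
            linarith
        · have : (n : ℝ) < 300 := by
            have : n < 300 := by omega
            exact_mod_cast this
          linarith
      · have : (m : ℝ) < 60 := by
          have : m < 60 := by omega
          exact_mod_cast this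
        linarith
    · by_cases h30 : 30 ≤ m
      · obtain ⟨D2, hD2, hD2c⟩ := dnum_exists (grid m n)
        have h3 := hB m n (ind D2) (by exact_mod_cast h30)
          (by exact_mod_cast le_trans h30 hle) (ind_dom D2 hD2)
        rw [ind_tot, hD2c] at h3
        have h4 := up m (n + 1) hm (by omega)
        have h5 : (5 : ℤ) * dnum (grid m (n + 1)) ≤ (m + 2) * (n + 1 + 2) := by exact_mod_cast h4
        have h6 : (pnum (grid m n) : ℤ) ≤ dnum (grid m (n + 1)) := by exact_mod_cast h2
        have h7 : 5 * ((pnum (grid m n) : ℤ) - dnum (grid m n)) ≤ m + 254 := by nlinarith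
        have h8 : 5 * ((pnum (grid m n) : ℝ) - dnum (grid m n)) ≤ m + 254 := by exact_mod_cast h7
        linarith
      · have h3 := succ m n (by omega)
        have h4 : pnum (grid m n) ≤ dnum (grid m n) + 29 := by omega
        have h5 : (pnum (grid m n) : ℝ) ≤ dnum (grid m n) + 29 := by exact_mod_cast h4
        have h6 : (0 : ℝ) ≤ m := Nat.cast_nonneg m
        linarith
  rcases le_total m n with h | h
  · rw [min_eq_left h, max_eq_right h]
    exact key m n hm h hmn
  · rw [min_eq_right h, max_eq_left h, pnum_comm m n, dnum_comm m n]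
    exact key n m hn h (by rw [mul_comm]; exact hmn)

end PatGap
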