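import Pool.Agent.H.MP_b28609_co.Gap.Stmt

/-!
# MP_b28609_co, gap theorem: in clean rows the motion is vertical (module Band)
-/

set_option autoImplicit false

noncomputable section

namespace PatGap

theorem band (hR : RigGStmt) (hD : DispStmt) (hI : MvInvStmt) (hF : FluxDStmt) : BandStmt := by
  intro G n d d' f r hG hd hd' h0 h0' hM hn hC hC'
  obtain ⟨s, c, hs, hc0, hc4, hL⟩ := hR d (r + 1) (r + 240) 11 (n - 10) hd (by omega) (by omega)
    (fun i j h1 h2 h3 h4 => (hC i h1 h2).2 j h3 h4)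
  obtain ⟨s', c', hs', hc0', hc4', hL'⟩ := hR d' (r + 1) (r + 240) 11 (n - 10) hd' (by omega)
    (by omega) (fun i j h1 h2 h3 h4 => (hC' i h1 h2).2 j h3 h4)
  have e1 : r + 1 + 1 = r + 2 := by ring
  have e2 : r + 240 - 1 = r + 239 := by ring
  have e3 : (11 : ℤ) + 1 = 12 := by norm_num
  have e4 : n - 10 - 1 = n - 11 := by ring
  rw [e1, e2, e3, e4] at hL hL'
  obtain ⟨rfl, hne⟩ := hD d d' f s s' c c' (r + 2) (r + 239) 12 (n - 11) hM hs hs' (by omega)
    (by omega) hc0 hc4 hc0' hc4' hL hL'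
  have hF1 := hF G n d d' f r s c c' hG hd hd' h0 h0' hM hn hC hC' hs hc0 hc4 hc0' hc4' hL hL'
  obtain ⟨g, hg, _, _⟩ := hI d d' f hM
  have hF2 := hF G n d' d g r s c' c hG hd' hd h0' h0 hg hn hC' hC hs hc0' hc4' hc0 hc4 hL' hL
  refine ⟨s, c, c', hs, hL, hL', ?_⟩
  rcases hs with rfl | rfl <;> omega

end PatGap
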