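import Pool.Agent.H.MP_b28609_co.Gap.Stmt2

/-!
# MP_b28609_co, gap theorem, second part: the two cases of clean columns
-/

set_option autoImplicit false

noncomputable section

namespace PatGap

/-- A sum of `0`s and `1`s over an interval. -/
lemma caseR_sum_bin (e : ℤ → ℤ) (he : ∀ i, e i = 0 ∨ e i = 1) (a b : ℤ) (hab : a ≤ b + 1) :
    0 ≤ ∑ i ∈ Finset.Icc a b, e i ∧ ∑ i ∈ Finset.Icc a b, e i ≤ b + 1 - a := by
  constructor
  · apply Finset.sum_nonneg
    intro i _
    rcases he i with h | h <;> omega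
  · have h1 : ∑ i ∈ Finset.Icc a b, e i ≤ ∑ i ∈ Finset.Icc a b, (1 : ℤ) := by
      apply Finset.sum_le_sum
      intro i _
      rcases he i with h | h <;> omega
    have h2 : ∑ i ∈ Finset.Icc a b, (1 : ℤ) = b + 1 - a := by
      rw [Finset.sum_const, Int.card_Icc]
      simp only [nsmul_eq_mul, mul_one]
      omega
    omega

/-- Splitting an interval. -/
lemma caseR_sum_split (e : ℤ → ℤ) (a b c : ℤ) (h1 : a ≤ b + 1) (h2 : b ≤ c) :
    ∑ i ∈ Finset.Icc a c, e i = ∑ i ∈ Finset.Icc a b, e i + ∑ i ∈ Finset.Icc (b + 1) c, e i := by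
  rw [← Finset.sum_union]
  · apply Finset.sum_congr _ (fun _ _ => rfl)
    ext i
    simp only [Finset.mem_union, Finset.mem_Icc]
    omega
  · rw [Finset.disjoint_left]
    intro i hi hj
    simp only [Finset.mem_Icc] at hi hj
    omega

/-- The rows near the two sides contain at most 22 guards of a column. -/
lemma caseR_col_mid (m : ℤ) (d : ℤ → ℤ → ℤ) (hd : Bin d) (hm : 60 ≤ m) (j : ℤ) :
    ∑ i ∈ Finset.Icc (12 : ℤ) (m - 11), d i j ≤ col m d j ∧
      col m d j ≤ ∑ i ∈ Finset.Icc (12 : ℤ) (m - 11), d i j + 22 := by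
  have e1 := caseR_sum_split (fun i => d i j) 1 11 m (by omega) (by omega)
  have e2 := caseR_sum_split (fun i => d i j) (11 + 1) (m - 11) m (by omega) (by omega)
  have b1 := caseR_sum_bin (fun i => d i j) (fun i => hd i j) 1 11 (by omega)
  have b2 := caseR_sum_bin (fun i => d i j) (fun i => hd i j) (m - 11 + 1) m (by omega)
  have e3 : (11 : ℤ) + 1 = 12 := by norm_num
  rw [e3] at e1 e2
  unfold col
  constructor <;> omega

/-- Two neighbouring columns of a perfect code. -/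
lemma caseR_col_diff (hC : CntStmt) (m : ℤ) (d : ℤ → ℤ → ℤ) (hd : Bin d) (hm : 60 ≤ m)
    (s c j k : ℤ) (hs : s = 2 ∨ s = 3) (hc0 : 0 ≤ c) (hc4 : c ≤ 4)
    (hj : ∀ i, 12 ≤ i → i ≤ m - 11 → (d i j = 1 ↔ (j + s * i) % 5 = c))
    (hk : ∀ i, 12 ≤ i → i ≤ m - 11 → (d i k = 1 ↔ (k + s * i) % 5 = c)) :
    -23 ≤ col m d j - col m d k ∧ m - 26 ≤ 5 * ∑ i ∈ Finset.Icc (12 : ℤ) (m - 11), d i j := by
  have c1 := hC (fun i => d i j) s j c 12 (m - 11) hs hc0 hc4 (fun i => hd i j) (by omega) hj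
  have c2 := hC (fun i => d i k) s k c 12 (m - 11) hs hc0 hc4 (fun i => hd i k) (by omega) hk
  have m1 := caseR_col_mid m d hd hm j
  have m2 := caseR_col_mid m d hd hm k
  constructor <;> omega

theorem caseR (hH : HalfStmt) (hR : RefStmt) (hF : FluxEStmt) (hC : CntStmt) : CaseRStmt := by
  intro G m n d d' f q s c c' hG hd hd' hf hm hq hqn hs hc0 hc4 hc0' hc4' hL hL' hmv
  obtain ⟨w, hw⟩ : ∃ w, w = q + 120 := ⟨_, rfl⟩
  have hdb := hd.1
  have hdb' := hd'.1
  have A1 := caseR_col_diff hC m d hdb hm s c w (w + 1) hs hc0 hc4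
    (fun i h1 h2 => hL i w h1 h2 (by omega) (by omega))
    (fun i h1 h2 => hL i (w + 1) h1 h2 (by omega) (by omega))
  have A2 := caseR_col_diff hC m d hdb hm s c (w + 1) w hs hc0 hc4
    (fun i h1 h2 => hL i (w + 1) h1 h2 (by omega) (by omega))
    (fun i h1 h2 => hL i w h1 h2 (by omega) (by omega))
  have A3 := caseR_col_diff hC m d' hdb' hm s c' w (w + 1) hs hc0' hc4'
    (fun i h1 h2 => hL' i w h1 h2 (by omega) (by omega))
    (fun i h1 h2 => hL' i (w + 1) h1 h2 (by omega) (by omega))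
  have F := hF d d' f m n w hd hd' hf (by omega) (by omega) (by omega)
    (fun i h1 h2 h3 => hmv i w h1 h2 (by omega) (by omega) h3)
    (fun i h1 h2 h3 => by
      have := hmv i (w + 1) h1 h2 (by omega) (by omega) h3
      rw [this, show w + 1 + 1 = w + 2 by ring])
  have H1 := hH G hG m n w d' (by omega) (by omega) (by omega) hd'
  obtain ⟨R1, R2, R3⟩ := hR m n w d hd (by omega) (by omega)
  have H2 := hH G hG m n (n - w) (rf n d) (by omega) (by omega) (by omega) R1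
  have R4 := R3 (n - w)
  have R5 := R3 (n - w + 1)
  have e1 : n + 1 - (n - w) = w + 1 := by ring
  have e2 : n + 1 - (n - w + 1) = w := by ring
  rw [e1] at R4
  rw [e2] at R5
  rw [R4, R5] at H2
  have e3 : m * (n - w) = m * n - m * w := by ring
  rw [e3] at H2
  obtain ⟨P, hP⟩ : ∃ P, P = m * n := ⟨_, rfl⟩
  obtain ⟨Q, hQ⟩ : ∃ Q, Q = m * w := ⟨_, rfl⟩
  rw [← hP, ← hQ] at H2
  rw [← hQ] at H1
  rw [← hP]
  omega

theorem caseB (hHB : HBandStmt) (hI : MvInvStmt) (hCR : CaseRStmt) : CaseBStmt := by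
  intro G m n d d' f q hG hd hd' hf ht hm hq hqn hcl hcl'
  obtain ⟨s, c, c', hs, hc0, hc4, hc0', hc4', hL, hL', h⟩ :=
    hHB G m n d d' f q hG hd hd' hf hm hcl hcl'
  rcases h with h | h
  · exact hCR G m n d d' f q s c c' hG hd hd' hf hm hq hqn hs hc0 hc4 hc0' hc4' hL hL' h
  · obtain ⟨g, hg, -, -⟩ := hI d d' f hf
    rw [ht]
    exact hCR G m n d' d g q s c' c hG hd' hd hg hm hq hqn hs hc0' hc4' hc0 hc4 hL' hL (h g hg)

end PatGap
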