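import Pool.Agent.H.MP_b28609_co.Gap.Stmt

/-!
# MP_b28609_co, gap theorem, module Cross: clean rows and clean columns exclude each other
-/

set_option autoImplicit false

noncomputable section

namespace PatGap

private theorem Cross_hit {d : ℤ → ℤ → ℤ} (hb : Bin d) {x y : ℤ} (h : a d x y = 1) :
    ∃ i j : ℤ, x - 1 ≤ i ∧ i ≤ x + 1 ∧ y - 1 ≤ j ∧ j ≤ y + 1 ∧ d i j = 1 := by
  by_contra hne
  push Not at hne
  have h0 : ∀ i j : ℤ, x - 1 ≤ i → i ≤ x + 1 → y - 1 ≤ j → j ≤ y + 1 → d i j = 0 := by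
    intro i j h1 h2 h3 h4
    rcases hb i j with h5 | h5
    · exact h5
    · exact absurd h5 (hne i j h1 h2 h3 h4)
  unfold a at h
  rw [h0 x y (by omega) (by omega) (by omega) (by omega),
    h0 (x - 1) y (by omega) (by omega) (by omega) (by omega),
    h0 (x + 1) y (by omega) (by omega) (by omega) (by omega),
    h0 x (y - 1) (by omega) (by omega) (by omega) (by omega),
    h0 x (y + 1) (by omega) (by omega) (by omega) (by omega)] at h
  omega

private theorem Cross_core {d : ℤ → ℤ → ℤ} (hb : Bin d) {s c s2 c2 r q : ℤ}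
    (hs : s = 2 ∨ s = 3) (hs2 : s2 = 2 ∨ s2 = 3)
    (h1 : ∀ i j : ℤ, r + 2 ≤ i → i ≤ r + 239 → q + 2 ≤ j → j ≤ q + 239 →
      (d i j = 1 ↔ (i + s * j) % 5 = c))
    (h2 : ∀ i j : ℤ, r + 2 ≤ i → i ≤ r + 239 → q + 2 ≤ j → j ≤ q + 239 →
      (d i j = 1 ↔ (j + s2 * i) % 5 = c2))
    (ha : a d (r + 100) (q + 100) = 1) :
    s + s2 = 5 ∧ (c2 - s2 * c) % 5 = 0 := by
  obtain ⟨i, j, e1, e2, e3, e4, e5⟩ := Cross_hit hb ha
  have f1 := (h1 i j (by omega) (by omega) (by omega) (by omega)).1 e5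
  have f2 := (h2 i j (by omega) (by omega) (by omega) (by omega)).1 e5
  rcases hs with rfl | rfl
  · have g1 := (h1 (i + 1) (j + 2) (by omega) (by omega) (by omega) (by omega)).2 (by omega)
    have g2 := (h2 (i + 1) (j + 2) (by omega) (by omega) (by omega) (by omega)).1 g1
    rcases hs2 with rfl | rfl
    · omega
    · omega
  · have g1 := (h1 (i + 1) (j - 2) (by omega) (by omega) (by omega) (by omega)).2 (by omega)
    have g2 := (h2 (i + 1) (j - 2) (by omega) (by omega) (by omega) (by omega)).1 g1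
    rcases hs2 with rfl | rfl
    · omega
    · omega

/-- the transposed motion -/
private theorem Cross_tr {d d' : ℤ → ℤ → ℤ} {f : ℤ × ℤ → ℤ × ℤ} (h : Mv d d' f) :
    Mv (tr d) (tr d') (fun v => ((f (v.2, v.1)).2, (f (v.2, v.1)).1)) := by
  refine ⟨fun v hv => h.mem (v.2, v.1) hv, fun v hv => ?_, fun v w hv hw hvw => ?_,
    fun w hw => ?_⟩
  · have h1 := h.nb (v.2, v.1) hv
    unfold Nb at h1 ⊢
    dsimp only at h1 ⊢
    omega
  · have h1 : (f (v.2, v.1)).2 = (f (w.2, w.1)).2 := congrArg Prod.fst hvw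
    have h2 : (f (v.2, v.1)).1 = (f (w.2, w.1)).1 := congrArg Prod.snd hvw
    have h3 := h.inj (v.2, v.1) (w.2, w.1) hv hw (Prod.ext h2 h1)
    exact Prod.ext (congrArg Prod.snd h3) (congrArg Prod.fst h3)
  · obtain ⟨v, hv, hfv⟩ := h.surj (w.2, w.1) hw
    refine ⟨(v.2, v.1), hv, ?_⟩
    show ((f (v.1, v.2)).2, (f (v.1, v.2)).1) = w
    have h1 : f (v.1, v.2) = (w.2, w.1) := hfv
    rw [h1]

theorem cross (hB : BandStmt) : CrossStmt := by
  rintro G m n d d' f r q hG hd hd' hf hm hn hr hrm hq hqn ⟨k1, k2, k3, k4⟩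
  have z1 : ∀ e : ℤ → ℤ → ℤ, DomG m n e → ∀ i j, j ≤ 0 → e i j = 0 := by
    intro e he i j hj
    exact he.2.1 i j (by omega)
  have z2 : ∀ e : ℤ → ℤ → ℤ, DomG m n e → ∀ i j, j ≤ 0 → tr e i j = 0 := by
    intro e he i j hj
    exact he.2.1 j i (by omega)
  have b2 : ∀ e : ℤ → ℤ → ℤ, DomG m n e → Bin (tr e) := fun e he i j => he.1 j i
  obtain ⟨s, c, c', hs, l1, l2, l3⟩ := hB G n d d' f r hG hd.1 hd'.1 (z1 d hd) (z1 d' hd') hf
    (by omega) k1 k2
  obtain ⟨s2, c2, c2', hs2, l4, l5, l6⟩ := hB G m (tr d) (tr d') _ q hG (b2 d hd) (b2 d' hd')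
    (z2 d hd) (z2 d' hd') (Cross_tr hf) (by omega) k3 k4
  have p1 : a d (r + 100) (q + 100) = 1 :=
    (k1 (r + 100) (by omega) (by omega)).2 (q + 100) (by omega) (by omega)
  have p2 : a d' (r + 100) (q + 100) = 1 :=
    (k2 (r + 100) (by omega) (by omega)).2 (q + 100) (by omega) (by omega)
  have t1 := Cross_core hd.1 hs hs2 (r := r) (q := q)
    (fun i j a1 a2 a3 a4 => l1 i j a1 a2 (by omega) (by omega))
    (fun i j a1 a2 a3 a4 => l4 j i a3 a4 (by omega) (by omega)) p1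
  have t2 := Cross_core hd'.1 hs hs2 (r := r) (q := q)
    (fun i j a1 a2 a3 a4 => l2 i j a1 a2 (by omega) (by omega))
    (fun i j a1 a2 a3 a4 => l5 j i a3 a4 (by omega) (by omega)) p2
  obtain ⟨u1, u2⟩ := t1
  obtain ⟨-, u3⟩ := t2
  rcases hs2 with rfl | rfl
  · omega
  · omega

end PatGap
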