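import Pool.Agent.H.MP_b28609_co.Gap.Stmt

/-!
# MP_b28609_co, gap theorem: module Disp (two perfect codes moved onto each other) and the inverse motion
-/

set_option autoImplicit false

namespace PatGap

theorem Nb.symm {v w : ℤ × ℤ} (h : Nb v w) : Nb w v := by
  unfold Nb at h ⊢
  omega

/-- a common cell of two perfect codes is not moved onto the second one -/
theorem disp_cell {d d' : ℤ → ℤ → ℤ} {f : ℤ × ℤ → ℤ × ℤ} {s s' c c' r1 r2 c1 c2 : ℤ} (hm : Mv d d' f)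
    (hs' : s' = 2 ∨ s' = 3) (h : Lat d s c r1 r2 c1 c2) (h' : Lat d' s' c' r1 r2 c1 c2) {i j : ℤ}
    (hi1 : r1 + 1 ≤ i) (hi2 : i + 1 ≤ r2) (hj1 : c1 + 1 ≤ j) (hj2 : j + 1 ≤ c2)
    (e : (i + s * j) % 5 = c) (e' : (i + s' * j) % 5 = c') : False := by
  have hd : d i j = 1 := (h i j (by omega) (by omega) (by omega) (by omega)).2 e
  have hw := hm.mem (i, j) hd
  have hn := hm.nb (i, j) hd
  generalize f (i, j) = w at hw hn
  obtain ⟨a, b⟩ := w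
  simp only [Nb] at hn hw
  have e2 : (a + s' * b) % 5 = c' :=
    (h' a b (by omega) (by omega) (by omega) (by omega)).1 hw
  rcases hs' with rfl | rfl <;> omega

theorem disp' (d d' : ℤ → ℤ → ℤ) (f : ℤ × ℤ → ℤ × ℤ) (s s' c c' r1 r2 c1 c2 : ℤ) (hm : Mv d d' f)
    (hs : s = 2 ∨ s = 3) (hs' : s' = 2 ∨ s' = 3) (hr : r1 + 8 ≤ r2) (hc : c1 + 8 ≤ c2)
    (h0 : 0 ≤ c) (h4 : c ≤ 4) (h0' : 0 ≤ c') (h4' : c' ≤ 4)
    (h : Lat d s c r1 r2 c1 c2) (h' : Lat d' s' c' r1 r2 c1 c2) : s = s' ∧ (c' - c) % 5 ≠ 0 := by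
  by_contra hcon
  have key : ∃ i j : ℤ, r1 + 1 ≤ i ∧ i ≤ r1 + 5 ∧ c1 + 1 ≤ j ∧ j ≤ c1 + 5 ∧
      (i + s * j) % 5 = c ∧ (i + s' * j) % 5 = c' := by
    rcases hs with rfl | rfl <;> rcases hs' with rfl | rfl
    · refine ⟨r1 + 1 + (c - 2 * (c1 + 1) - r1 - 1) % 5, c1 + 1, ?_⟩
      omega
    · obtain ⟨j, hj⟩ : ∃ j, j = c1 + 1 + (c' - c - c1 - 1) % 5 := ⟨_, rfl⟩
      refine ⟨r1 + 1 + (c - 2 * j - r1 - 1) % 5, j, ?_⟩
      omega
    · obtain ⟨j, hj⟩ : ∃ j, j = c1 + 1 + (c - c' - c1 - 1) % 5 := ⟨_, rfl⟩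
      refine ⟨r1 + 1 + (c - 3 * j - r1 - 1) % 5, j, ?_⟩
      omega
    · refine ⟨r1 + 1 + (c - 3 * (c1 + 1) - r1 - 1) % 5, c1 + 1, ?_⟩
      omega
  obtain ⟨i, j, h1, h2, h3, h5, h6, h7⟩ := key
  exact disp_cell hm hs' h h' h1 (by omega) h3 (by omega) h6 h7

theorem disp : DispStmt := disp'

open Classical in
theorem mvInv : MvInvStmt := by
  intro d d' f hm
  have key : ∀ w : ℤ × ℤ, ∃ v : ℤ × ℤ, d' w.1 w.2 = 1 → d v.1 v.2 = 1 ∧ f v = w := by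
    intro w
    by_cases hw : d' w.1 w.2 = 1
    · obtain ⟨v, hv⟩ := hm.surj w hw
      exact ⟨v, fun _ => hv⟩
    · exact ⟨w, fun h => absurd h hw⟩
  choose g hg using key
  refine ⟨g, ⟨fun w hw => (hg w hw).1, fun w hw => ?_, fun v w hv hw h => ?_, fun v hv => ?_⟩,
    fun v hv => ?_, fun w hw => (hg w hw).2⟩
  · have h1 := hm.nb (g w) (hg w hw).1
    rw [(hg w hw).2] at h1
    exact h1.symm
  · rw [← (hg v hv).2, ← (hg w hw).2, h]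
  · have h1 := hm.mem v hv
    exact ⟨f v, h1, hm.inj _ _ (hg _ h1).1 hv (hg _ h1).2⟩
  · have h1 := hm.mem v hv
    exact hm.inj _ _ (hg _ h1).1 hv (hg _ h1).2

end PatGap
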