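import Pool.Agent.H.MP_b28609_co.Def

/-!
# MP_b28609_co, gap theorem: upper bounds for the domination number of grids
-/

set_option autoImplicit false

namespace PatGap

open PatDom

private def clv (m n : ℕ) (hm : 1 ≤ m) (hn : 1 ≤ n) (p : Fin (m + 2) × Fin (n + 2)) :
    Fin m × Fin n :=
  (⟨min (p.1.val - 1) (m - 1), by omega⟩, ⟨min (p.2.val - 1) (n - 1), by omega⟩)

private theorem res_cases (X Y c : ℕ) (hX : 1 ≤ X) (hY : 1 ≤ Y) (hc : c < 5) :
    (X + 2 * Y) % 5 = c ∨ (X + 1 + 2 * Y) % 5 = c ∨ (X - 1 + 2 * Y) % 5 = c ∨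
      (X + 2 * (Y + 1)) % 5 = c ∨ (X + 2 * (Y - 1)) % 5 = c := by
  omega

/-- The domination number of the grid is at most a fifth of the number of cells of the grid with a
border of width one. -/
theorem dnum_grid_le (m n : ℕ) (hm : 1 ≤ m) (hn : 1 ≤ n) :
    5 * dnum (grid m n) ≤ (m + 2) * (n + 2) := by
  classical
  obtain ⟨S, hS⟩ : ∃ S : Fin 5 → Finset (Fin (m + 2) × Fin (n + 2)), ∀ c p,
      p ∈ S c ↔ (p.1.val + 2 * p.2.val) % 5 = c.val :=
    ⟨fun c => Finset.univ.filter fun p => (p.1.val + 2 * p.2.val) % 5 = c.val,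
      fun c p => by simp⟩
  have hsum : ∑ c : Fin 5, (S c).card = (m + 2) * (n + 2) := by
    have h1 : (Finset.univ : Finset (Fin (m + 2) × Fin (n + 2))).card = (m + 2) * (n + 2) := by
      rw [Finset.card_univ, Fintype.card_prod, Fintype.card_fin, Fintype.card_fin]
    rw [← h1, Finset.card_eq_sum_card_fiberwise (f := fun p : Fin (m + 2) × Fin (n + 2) =>
      (⟨(p.1.val + 2 * p.2.val) % 5, Nat.mod_lt _ (by norm_num)⟩ : Fin 5)) (t := Finset.univ)
      (fun p _ => Finset.mem_coe.2 (Finset.mem_univ _))]
    refine Finset.sum_congr rfl fun c _ => ?_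
    congr 1
    ext p
    rw [hS, Finset.mem_filter, Fin.ext_iff]
    simp
  obtain ⟨c, hc⟩ : ∃ c : Fin 5, 5 * (S c).card ≤ (m + 2) * (n + 2) := by
    by_contra hcon
    push Not at hcon
    have h1 := hcon 0
    have h2 := hcon 1
    have h3 := hcon 2
    have h4 := hcon 3
    have h5 := hcon 4
    rw [Fin.sum_univ_five] at hsum
    omega
  have hcard : ((S c).image (clv m n hm hn)).card ≤ (S c).card := Finset.card_image_le
  have hdom : Dom (grid m n) ((S c).image (clv m n hm hn)) := by
    rintro ⟨i, j⟩ hv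
    have key : ∀ (x y : ℕ) (hx : x < m + 2) (hy : y < n + 2), (x + 2 * y) % 5 = c.val →
        clv m n hm hn (⟨x, hx⟩, ⟨y, hy⟩) ∈ (S c).image (clv m n hm hn) := by
      intro x y hx hy hxy
      exact Finset.mem_image_of_mem _ ((hS c _).2 hxy)
    have hi := i.2
    have hj := j.2
    rcases res_cases (i.val + 1) (j.val + 1) c.val (by omega) (by omega) c.2 with h | h | h | h | h
    · have h1 := key _ _ (by omega) (by omega) h
      refine absurd ?_ hv
      convert h1 using 1
      exact Prod.ext (Fin.ext (by simp only [clv]; omega)) (Fin.ext (by simp only [clv]; omega))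
    · have h1 := key _ _ (by omega) (by omega) h
      by_cases hb : i.val + 1 < m
      · refine ⟨_, h1, (grid_adj _ _).2 (Or.inl ⟨Or.inl ?_, Fin.ext ?_⟩)⟩
        · simp only [clv]
          omega
        · simp only [clv]
          omega
      · refine absurd ?_ hv
        convert h1 using 1
        exact Prod.ext (Fin.ext (by simp only [clv]; omega)) (Fin.ext (by simp only [clv]; omega))
    · have h1 := key _ _ (by omega) (by omega) h
      by_cases hb : 1 ≤ i.val
      · refine ⟨_, h1, (grid_adj _ _).2 (Or.inl ⟨Or.inr ?_, Fin.ext ?_⟩)⟩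
        · simp only [clv]
          omega
        · simp only [clv]
          omega
      · refine absurd ?_ hv
        convert h1 using 1
        exact Prod.ext (Fin.ext (by simp only [clv]; omega)) (Fin.ext (by simp only [clv]; omega))
    · have h1 := key _ _ (by omega) (by omega) h
      by_cases hb : j.val + 1 < n
      · refine ⟨_, h1, (grid_adj _ _).2 (Or.inr ⟨Or.inl ?_, Fin.ext ?_⟩)⟩
        · simp only [clv]
          omega
        · simp only [clv]
          omega
      · refine absurd ?_ hv
        convert h1 using 1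
        exact Prod.ext (Fin.ext (by simp only [clv]; omega)) (Fin.ext (by simp only [clv]; omega))
    · have h1 := key _ _ (by omega) (by omega) h
      by_cases hb : 1 ≤ j.val
      · refine ⟨_, h1, (grid_adj _ _).2 (Or.inr ⟨Or.inr ?_, Fin.ext ?_⟩)⟩
        · simp only [clv]
          omega
        · simp only [clv]
          omega
      · refine absurd ?_ hv
        convert h1 using 1
        exact Prod.ext (Fin.ext (by simp only [clv]; omega)) (Fin.ext (by simp only [clv]; omega))
  have h1 := dnum_le _ _ hdom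
  omega

/-- Adding a column. -/
theorem dnum_succ_le (m n : ℕ) (hn : 1 ≤ n) :
    dnum (grid m (n + 1)) ≤ dnum (grid m n) + m := by
  classical
  obtain ⟨D, hD, hDc⟩ := dnum_exists (grid m n)
  have h1 : (D.image (fun p : Fin m × Fin n => (p.1, p.2.castSucc)) ∪
      (Finset.univ : Finset (Fin m)).image fun i => (i, Fin.last n)).card ≤ dnum (grid m n) + m := by
    refine (Finset.card_union_le _ _).trans (add_le_add (Finset.card_image_le.trans hDc.le) ?_)
    refine Finset.card_image_le.trans ?_
    rw [Finset.card_univ, Fintype.card_fin]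
  refine (dnum_le _ _ ?_).trans h1
  rintro ⟨i, j⟩ hv
  rw [Finset.mem_union, not_or] at hv
  induction j using Fin.lastCases with
  | last => exact absurd (Finset.mem_image_of_mem _ (Finset.mem_univ i)) hv.2
  | cast j =>
    have h3 : (i, j) ∉ D := fun h => hv.1 (Finset.mem_image.2 ⟨(i, j), h, rfl⟩)
    obtain ⟨u, hu, hadj⟩ := hD _ h3
    refine ⟨(u.1, u.2.castSucc), Finset.mem_union_left _ (Finset.mem_image.2 ⟨u, hu, rfl⟩), ?_⟩
    rw [grid_adj] at hadj ⊢
    rcases hadj with ⟨h5, h6⟩ | ⟨h5, h6⟩
    · exact Or.inl ⟨h5, congrArg Fin.castSucc h6⟩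
    · exact Or.inr ⟨h5, h6⟩

end PatGap
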