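import Pool.Agent.H.MP_b28609_co.Gap.Stmt

/-!
# MP_b28609_co, gap theorem: modules FluxA and FluxB
-/

set_option autoImplicit false

noncomputable section

namespace PatGap

private theorem FluxA_top (f : ℤ → ℤ) (k m : ℤ) (hm : k ≤ m) :
    ∑ j ∈ Finset.Icc k m, f j = ∑ j ∈ Finset.Icc k (m - 1), f j + f m := by
  have h : Finset.Icc k m = insert m (Finset.Icc k (m - 1)) := by
    ext x
    simp only [Finset.mem_Icc, Finset.mem_insert]
    omega
  have h2 : m ∉ Finset.Icc k (m - 1) := by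
    simp only [Finset.mem_Icc]
    omega
  rw [h, Finset.sum_insert h2, add_comm]

private theorem FluxA_tel (h : ℤ → ℤ) (r N : ℤ) (hN : 0 ≤ N) :
    ∑ i ∈ Finset.Icc (r + 1) (r + N), (h i - h (i - 1)) = h (r + N) - h r := by
  induction N, hN using Int.le_induction with
  | base => simp
  | succ n hn ih =>
    rw [FluxA_top _ (r + 1) (r + (n + 1)) (by omega), show r + (n + 1) - 1 = r + n by ring, ih]
    ring

private theorem FluxA_cwid (d : ℤ → ℤ → ℤ) (w i : ℤ) (hw : 2 ≤ w) :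
    cwid d w i = cwid d (w - 1) i + (d i (w - 1) + 3 * d i w + d i (w + 1)) := by
  unfold cwid
  rw [FluxA_top (fun j => d i j) 1 (w - 1) (by omega), show w - 1 + 1 = w by ring]
  ring

private theorem FluxA_step (d : ℤ → ℤ → ℤ) (r N w : ℤ) (hN : 0 ≤ N) (hb : Bin d) (hw : 2 ≤ w)
    (ha : ∀ i, r + 1 ≤ i → i ≤ r + N → a d i w = 1) :
    |∑ i ∈ Finset.Icc (r + 1) (r + N), cwid d w i -
      (∑ i ∈ Finset.Icc (r + 1) (r + N), cwid d (w - 1) i + N)| ≤ 2 := by
  have h1 : ∑ i ∈ Finset.Icc (r + 1) (r + N), cwid d w i =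
      ∑ i ∈ Finset.Icc (r + 1) (r + N), cwid d (w - 1) i + N +
      (∑ i ∈ Finset.Icc (r + 1) (r + N), (d i w - d (i - 1) w) -
        ∑ i ∈ Finset.Icc (r + 1) (r + N), (d (i + 1) w - d (i - 1 + 1) w)) := by
    have h2 : ∑ _i ∈ Finset.Icc (r + 1) (r + N), (1 : ℤ) = N := by
      rw [Finset.sum_const, Int.card_Icc, nsmul_eq_mul, mul_one]
      have : r + N + 1 - (r + 1) = N := by ring
      rw [this, Int.toNat_of_nonneg hN]
    have h4 : ∑ i ∈ Finset.Icc (r + 1) (r + N), cwid d (w - 1) i + N =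
        ∑ i ∈ Finset.Icc (r + 1) (r + N), cwid d (w - 1) i +
          ∑ _i ∈ Finset.Icc (r + 1) (r + N), (1 : ℤ) := by rw [h2]
    rw [h4, ← Finset.sum_add_distrib, ← Finset.sum_sub_distrib, ← Finset.sum_add_distrib]
    refine Finset.sum_congr rfl fun i hi => ?_
    rw [Finset.mem_Icc] at hi
    have h3 := ha i hi.1 hi.2
    unfold a at h3
    rw [FluxA_cwid d w i hw, sub_add_cancel]
    linarith
  rw [h1, FluxA_tel (fun i => d i w) r N hN, FluxA_tel (fun i => d (i + 1) w) r N hN]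
  have e1 := hb (r + N) w
  have e2 := hb r w
  have e3 := hb (r + N + 1) w
  have e4 := hb (r + 1) w
  rw [abs_le]
  constructor
  · rcases e1 with e1 | e1 <;> rcases e2 with e2 | e2 <;> rcases e3 with e3 | e3 <;>
      rcases e4 with e4 | e4 <;> simp only [e1, e2, e3, e4] <;> linarith
  · rcases e1 with e1 | e1 <;> rcases e2 with e2 | e2 <;> rcases e3 with e3 | e3 <;>
      rcases e4 with e4 | e4 <;> simp only [e1, e2, e3, e4] <;> linarith

theorem fluxA : FluxAStmt := by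
  intro G d r t hG hb h0 ht hs ha
  have hN : 0 ≤ 5 * t := by linarith
  have hbase : |∑ i ∈ Finset.Icc (r + 1) (r + 5 * t), cwid d 10 i - 55 * t| ≤ 22 := by
    have h1 : ∑ i ∈ Finset.Icc (r + 1) (r + 5 * t), cwid d 10 i =
        55 * t + ∑ i ∈ Finset.Icc (r + 1) (r + 5 * t), (G d i - G d (i - 1)) := by
      have h2 : 55 * t = ∑ _i ∈ Finset.Icc (r + 1) (r + 5 * t), (11 : ℤ) := by
        rw [Finset.sum_const, Int.card_Icc, nsmul_eq_mul]
        have : r + 5 * t + 1 - (r + 1) = 5 * t := by ring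
        rw [this, Int.toNat_of_nonneg hN]
        ring
      rw [h2, ← Finset.sum_add_distrib]
      refine Finset.sum_congr rfl fun i hi => ?_
      rw [Finset.mem_Icc] at hi
      have h3 := hs i hi.1 hi.2
      unfold sg at h3
      linarith
    rw [h1, FluxA_tel (fun i => G d i) r (5 * t) hN]
    have e1 := (hG d hb h0).1 (r + 5 * t)
    have e2 := (hG d hb h0).1 r
    rw [abs_le]
    constructor <;> linarith [e1.1, e1.2, e2.1, e2.2]
  have s11 := FluxA_step d r (5 * t) 11 hN hb (by norm_num)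
    (fun i h1 h2 => ha i 11 h1 h2 (by norm_num) (by norm_num))
  have s12 := FluxA_step d r (5 * t) 12 hN hb (by norm_num)
    (fun i h1 h2 => ha i 12 h1 h2 (by norm_num) (by norm_num))
  have s13 := FluxA_step d r (5 * t) 13 hN hb (by norm_num)
    (fun i h1 h2 => ha i 13 h1 h2 (by norm_num) (by norm_num))
  have s14 := FluxA_step d r (5 * t) 14 hN hb (by norm_num)
    (fun i h1 h2 => ha i 14 h1 h2 (by norm_num) (by norm_num))
  have s15 := FluxA_step d r (5 * t) 15 hN hb (by norm_num)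
    (fun i h1 h2 => ha i 15 h1 h2 (by norm_num) (by norm_num))
  have s16 := FluxA_step d r (5 * t) 16 hN hb (by norm_num)
    (fun i h1 h2 => ha i 16 h1 h2 (by norm_num) (by norm_num))
  rw [show (11 : ℤ) - 1 = 10 by norm_num, abs_le] at s11
  rw [show (12 : ℤ) - 1 = 11 by norm_num, abs_le] at s12
  rw [show (13 : ℤ) - 1 = 12 by norm_num, abs_le] at s13
  rw [show (14 : ℤ) - 1 = 13 by norm_num, abs_le] at s14
  rw [show (15 : ℤ) - 1 = 14 by norm_num, abs_le] at s15
  rw [show (16 : ℤ) - 1 = 15 by norm_num, abs_le] at s16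
  rw [abs_le] at hbase ⊢
  constructor <;> linarith [s11.1, s11.2, s12.1, s12.2, s13.1, s13.2, s14.1, s14.2, s15.1, s15.2,
    s16.1, s16.2, hbase.1, hbase.2]

private theorem FluxB_five (d1 d2 d3 d4 d5 u c : ℤ) (h1 : d1 = 0 ∨ d1 = 1) (h2 : d2 = 0 ∨ d2 = 1)
    (h3 : d3 = 0 ∨ d3 = 1) (h4 : d4 = 0 ∨ d4 = 1) (h5 : d5 = 0 ∨ d5 = 1) (hc : 0 ≤ c) (hc' : c ≤ 4)
    (e1 : d1 = 1 ↔ (u + 1) % 5 = c) (e2 : d2 = 1 ↔ (u + 2) % 5 = c)
    (e3 : d3 = 1 ↔ (u + 3) % 5 = c) (e4 : d4 = 1 ↔ (u + 4) % 5 = c)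
    (e5 : d5 = 1 ↔ (u + 5) % 5 = c) : d1 + d2 + d3 + d4 + d5 = 1 := by
  omega

theorem fluxB : FluxBStmt := by
  intro d s c r t j hb ht hc hc' hL
  have key : ∀ t : ℤ, 0 ≤ t → (∀ i, r + 1 ≤ i → i ≤ r + 5 * t → (d i j = 1 ↔ (i + s * j) % 5 = c)) →
      ∑ i ∈ Finset.Icc (r + 1) (r + 5 * t), d i j = t := by
    intro t ht
    induction t, ht using Int.le_induction with
    | base =>
      intro _
      simp
    | succ n hn ih =>
      intro h
      have ih' := ih fun i h1 h2 => h i h1 (by omega)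
      rw [FluxA_top _ (r + 1) (r + 5 * (n + 1)) (by omega),
        FluxA_top _ (r + 1) (r + 5 * (n + 1) - 1) (by omega),
        FluxA_top _ (r + 1) (r + 5 * (n + 1) - 1 - 1) (by omega),
        FluxA_top _ (r + 1) (r + 5 * (n + 1) - 1 - 1 - 1) (by omega),
        FluxA_top _ (r + 1) (r + 5 * (n + 1) - 1 - 1 - 1 - 1) (by omega),
        show r + 5 * (n + 1) - 1 - 1 - 1 - 1 - 1 = r + 5 * n by ring,
        show r + 5 * (n + 1) - 1 - 1 - 1 - 1 = r + 5 * n + 1 by ring,
        show r + 5 * (n + 1) - 1 - 1 - 1 = r + 5 * n + 2 by ring,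
        show r + 5 * (n + 1) - 1 - 1 = r + 5 * n + 3 by ring,
        show r + 5 * (n + 1) - 1 = r + 5 * n + 4 by ring,
        show r + 5 * (n + 1) = r + 5 * n + 5 by ring, ih']
      have h5 := FluxB_five (d (r + 5 * n + 1) j) (d (r + 5 * n + 2) j) (d (r + 5 * n + 3) j)
        (d (r + 5 * n + 4) j) (d (r + 5 * n + 5) j) (r + 5 * n + s * j) c (hb _ _) (hb _ _)
        (hb _ _) (hb _ _) (hb _ _) hc hc'
        (by rw [h _ (by omega) (by omega), show r + 5 * n + 1 + s * j = r + 5 * n + s * j + 1 by ring])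
        (by rw [h _ (by omega) (by omega), show r + 5 * n + 2 + s * j = r + 5 * n + s * j + 2 by ring])
        (by rw [h _ (by omega) (by omega), show r + 5 * n + 3 + s * j = r + 5 * n + s * j + 3 by ring])
        (by rw [h _ (by omega) (by omega), show r + 5 * n + 4 + s * j = r + 5 * n + s * j + 4 by ring])
        (by rw [h _ (by omega) (by omega), show r + 5 * n + 5 + s * j = r + 5 * n + s * j + 5 by ring])
      linarith
  exact key t ht fun i h1 h2 => hL i j h1 h2 le_rfl le_rfl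

end PatGap
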