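import Pool.Agent.H.MP_b28609_co.Gap.Stmt

/-!
# MP_b28609_co, gap theorem, module FluxC: the flux of guards
-/

set_option autoImplicit false

namespace PatGap

open Finset

private theorem fluxC_sum (e : ℤ → ℤ → ℤ) (he : Bin e) (A B : Finset ℤ) :
    ∑ i ∈ A, ∑ j ∈ B, e i j = (((A ×ˢ B).filter fun v : ℤ × ℤ => e v.1 v.2 = 1).card : ℤ) := by
  rw [Finset.card_filter, Nat.cast_sum, Finset.sum_product]
  refine Finset.sum_congr rfl fun i _ => Finset.sum_congr rfl fun j _ => ?_
  rcases he i j with h | h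
  · simp [h]
  · simp [h]

theorem fluxC : FluxCStmt := by
  classical
  intro d d' f r t hd hd' h0 h0' hf ht hright
  have hX := fluxC_sum d hd (Icc (r + 1) (r + 5 * t)) (Icc (1 : ℤ) 16)
  have hY := fluxC_sum d' hd' (Icc (r + 1) (r + 5 * t)) (Icc (1 : ℤ) 16)
  set X := ((Icc (r + 1) (r + 5 * t)) ×ˢ (Icc (1 : ℤ) 16)).filter
    fun v : ℤ × ℤ => d v.1 v.2 = 1 with hXd
  set Y := ((Icc (r + 1) (r + 5 * t)) ×ˢ (Icc (1 : ℤ) 16)).filter
    fun v : ℤ × ℤ => d' v.1 v.2 = 1 with hYd
  have hO := fluxC_sum d hd (Icc (r + 1) (r + 5 * t)) {16}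
  set O := ((Icc (r + 1) (r + 5 * t)) ×ˢ ({16} : Finset ℤ)).filter
    fun v : ℤ × ℤ => d v.1 v.2 = 1 with hOd
  have hO' : ∑ i ∈ Icc (r + 1) (r + 5 * t), d i 16 = (O.card : ℤ) := by
    rw [← hO]
    exact Finset.sum_congr rfl fun i _ => by rw [Finset.sum_singleton]
  set In : Finset (ℤ × ℤ) := ({r, r + 5 * t + 1} : Finset ℤ) ×ˢ (Icc (1 : ℤ) 16) with hIn
  have hIn32 : In.card ≤ 32 := by
    rw [hIn, Finset.card_product]
    have h1 : ({r, r + 5 * t + 1} : Finset ℤ).card ≤ 2 := Finset.card_le_two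
    have h2 : (Icc (1 : ℤ) 16).card = 16 := by simp
    rw [h2]
    omega
  have hOX : O ⊆ X := by
    intro v hv
    simp only [hOd, hXd, Finset.mem_filter, Finset.mem_product, Finset.mem_Icc,
      Finset.mem_singleton] at hv ⊢
    obtain ⟨⟨h1, h2⟩, h3⟩ := hv
    exact ⟨⟨h1, by omega⟩, h3⟩
  have hsub : Y ⊆ ((X \ O) ∪ In).image f := by
    intro w hw
    simp only [hYd, Finset.mem_filter, Finset.mem_product, Finset.mem_Icc] at hw
    obtain ⟨⟨⟨w1, w2⟩, w3, w4⟩, hw'⟩ := hw
    obtain ⟨v, hv, rfl⟩ := hf.surj w hw'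
    refine Finset.mem_image.2 ⟨v, ?_, rfl⟩
    have hnb := hf.nb v hv
    have hA : v.2 ≠ 0 := by
      intro h
      have := h0 v.1 v.2 (by omega)
      rw [this] at hv
      exact absurd hv (by norm_num)
    by_cases hR : (r + 1 ≤ v.1 ∧ v.1 ≤ r + 5 * t) ∧ 1 ≤ v.2 ∧ v.2 ≤ 16
    · refine Finset.mem_union_left _ (Finset.mem_sdiff.2 ⟨?_, ?_⟩)
      · simp only [hXd, Finset.mem_filter, Finset.mem_product, Finset.mem_Icc]
        exact ⟨hR, hv⟩
      · intro hvO
        simp only [hOd, Finset.mem_filter, Finset.mem_product, Finset.mem_Icc,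
          Finset.mem_singleton] at hvO
        obtain ⟨⟨h1, h2⟩, h3⟩ := hvO
        have h4 : f (v.1, v.2) = (v.1, v.2 + 1) := hright v.1 v.2 h1.1 h1.2 (by omega) (by omega) hv
        have h5 : (f v).2 = v.2 + 1 := by
          have : f v = (v.1, v.2 + 1) := h4
          rw [this]
        omega
    · refine Finset.mem_union_right _ ?_
      simp only [hIn, Finset.mem_product, Finset.mem_insert, Finset.mem_singleton,
        Finset.mem_Icc]
      have hB : ¬ (v.2 = 17 ∧ r + 1 ≤ v.1 ∧ v.1 ≤ r + 5 * t) := by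
        rintro ⟨h1, h2, h3⟩
        have h4 : f (v.1, v.2) = (v.1, v.2 + 1) := hright v.1 v.2 h2 h3 (by omega) (by omega) hv
        have h5 : (f v).2 = v.2 + 1 := by
          have : f v = (v.1, v.2 + 1) := h4
          rw [this]
        omega
      rcases hnb with ⟨h1, h2 | h2⟩ | ⟨h1, h2 | h2⟩
      · exfalso
        apply hR
        refine ⟨⟨by omega, by omega⟩, by omega, by omega⟩
      · exfalso
        by_cases h3 : v.2 = 17
        · exact hB ⟨h3, by omega, by omega⟩
        · apply hR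
          refine ⟨⟨by omega, by omega⟩, by omega, by omega⟩
      · refine ⟨Or.inl ?_, by omega, by omega⟩
        by_contra h3
        apply hR
        refine ⟨⟨by omega, by omega⟩, by omega, by omega⟩
      · refine ⟨Or.inr ?_, by omega, by omega⟩
        by_contra h3
        apply hR
        refine ⟨⟨by omega, by omega⟩, by omega, by omega⟩
  have hcard : Y.card + O.card ≤ X.card + 32 := by
    have h1 := (Finset.card_le_card hsub).trans Finset.card_image_le
    have h2 := Finset.card_union_le (X \ O) In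
    have h3 := Finset.card_sdiff_add_card_eq_card hOX
    omega
  rw [hX, hY, hO']
  have : (Y.card : ℤ) + O.card ≤ X.card + 32 := by exact_mod_cast hcard
  linarith

end PatGap
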