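import Pool.Agent.H.MP_b28609_co.Gap.Stmt

/-!
# MP_b28609_co, module FluxD: no clean rows with a motion to the right
-/

set_option autoImplicit false

noncomputable section

namespace PatGap

theorem fluxD (hA : FluxAStmt) (hB : FluxBStmt) (hC : FluxCStmt) : FluxDStmt := by
  intro G n d d' f r s c c' hG hbd hbd' hd0 hd0' hm hn hcl hcl' hs hc0 hc4 hc0' hc4' hL hL' hcon
  have key : ∀ (e : ℤ → ℤ → ℤ) (c : ℤ), Bin e → (∀ i j, j ≤ 0 → e i j = 0) → Clean G n e r →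
      0 ≤ c → c ≤ 4 → Lat e s c (r + 2) (r + 239) 12 (n - 11) →
      ∑ i ∈ Finset.Icc (r + 4 + 1) (r + 4 + 5 * 46), e i 16 = 46 ∧
      |5 * (∑ i ∈ Finset.Icc (r + 4 + 1) (r + 4 + 5 * 46),
        ∑ j ∈ Finset.Icc (1 : ℤ) 16, e i j) - 85 * 46| ≤ 34 := by
    intro e c hbe he0 hcle hc0 hc4 hLe
    have h16 : ∑ i ∈ Finset.Icc (r + 4 + 1) (r + 4 + 5 * 46), e i 16 = 46 :=
      hB e s c (r + 4) 46 16 hbe (by norm_num) hc0 hc4 (fun i j h1 h2 h3 h4 =>
        hLe i j (by omega) (by omega) (by omega) (by omega))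
    have h17 : ∑ i ∈ Finset.Icc (r + 4 + 1) (r + 4 + 5 * 46), e i 17 = 46 :=
      hB e s c (r + 4) 46 17 hbe (by norm_num) hc0 hc4 (fun i j h1 h2 h3 h4 =>
        hLe i j (by omega) (by omega) (by omega) (by omega))
    have h1 := hA G e (r + 4) 46 hG hbe he0 (by norm_num)
      (fun i h1 h2 => (hcle i (by omega) (by omega)).1)
      (fun i j h1 h2 h3 h4 => (hcle i (by omega) (by omega)).2 j h3 (by omega))
    have h2 : ∑ i ∈ Finset.Icc (r + 4 + 1) (r + 4 + 5 * 46), cwid e 16 i =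
        5 * ∑ i ∈ Finset.Icc (r + 4 + 1) (r + 4 + 5 * 46),
          ∑ j ∈ Finset.Icc (1 : ℤ) 16, e i j := by
      have h3 : ∀ i, cwid e 16 i = 5 * ∑ j ∈ Finset.Icc (1 : ℤ) 16, e i j - e i 16 + e i 17 := by
        intro i
        have h4 : ∑ j ∈ Finset.Icc (1 : ℤ) 16, e i j =
            ∑ j ∈ Finset.Icc (1 : ℤ) (16 - 1), e i j + e i 16 := by
          have h5 : Finset.Icc (1 : ℤ) 16 = insert 16 (Finset.Icc (1 : ℤ) (16 - 1)) := by
            ext x
            simp only [Finset.mem_Icc, Finset.mem_insert]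
            omega
          rw [h5, Finset.sum_insert (by simp), add_comm]
        have h6 : cwid e 16 i = 5 * (∑ j ∈ Finset.Icc (1 : ℤ) (16 - 1), e i j) + 4 * e i 16 +
            e i (16 + 1) := rfl
        have h7 : (16 : ℤ) + 1 = 17 := by norm_num
        rw [h6, h4, h7]
        ring
      rw [Finset.sum_congr rfl fun i _ => h3 i, Finset.sum_add_distrib, Finset.sum_sub_distrib,
        ← Finset.mul_sum, h16, h17]
      ring
    rw [h2] at h1
    exact ⟨h16, h1⟩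
  obtain ⟨k1, k2⟩ := key d c hbd hd0 hcl hc0 hc4 hL
  obtain ⟨-, k3⟩ := key d' c' hbd' hd0' hcl' hc0' hc4' hL'
  have hmove : ∀ i j, r + 4 + 1 ≤ i → i ≤ r + 4 + 5 * 46 → 16 ≤ j → j ≤ 17 → d i j = 1 →
      f (i, j) = (i, j + 1) := by
    intro i j h1 h2 h3 h4 h5
    have h6 := hm.mem (i, j) h5
    have h7 := hm.nb (i, j) h5
    have h8 := (hL i j (by omega) (by omega) (by omega) (by omega)).1 h5
    obtain ⟨x, y, hxy⟩ : ∃ x y, f (i, j) = (x, y) := ⟨_, _, rfl⟩
    rw [hxy] at h6 h7 ⊢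
    have h9 : (x = i ∧ (y = j + 1 ∨ y = j - 1)) ∨ (y = j ∧ (x = i + 1 ∨ x = i - 1)) := h7
    have h10 : (x + s * y) % 5 = c' :=
      (hL' x y (by omega) (by omega) (by omega) (by omega)).1 h6
    have h11 : x = i ∧ y = j + 1 := by
      rcases hs with rfl | rfl
      · omega
      · omega
    rw [h11.1, h11.2]
  have h1 := hC d d' f (r + 4) 46 hbd hbd' hd0 hd0' hm (by norm_num) hmove
  rw [k1] at h1
  have k4 := (abs_le.1 k2).2
  have k5 := (abs_le.1 k3).1
  linarith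

end PatGap
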