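import Pool.Agent.H.MP_b28609_co.Gap.Stmt

/-!
# Module RigG: exact domination of a rectangle
-/

set_option autoImplicit false

namespace PatGap

private theorem RigG_dec : ∀ s ∈ [2, 3], ∀ s' ∈ [2, 3], ∀ u < 5, ∀ u' < 5,
    (∀ x < 4, ∀ y < 4, ((x + s * y) % 5 = u ↔ (x + s' * y) % 5 = u')) → s = s' ∧ u = u' := by
  decide

/-- Two patterns which agree on a `4 × 4` square are equal. -/
private theorem RigG_key {d : ℤ → ℤ → ℤ} {s c s' c' p q : ℤ} (hs : s = 2 ∨ s = 3)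
    (hs' : s' = 2 ∨ s' = 3) (hc0 : 0 ≤ c) (hc4 : c ≤ 4) (hc0' : 0 ≤ c') (hc4' : c' ≤ 4)
    (h : Lat d s c p (p + 3) q (q + 3)) (h' : Lat d s' c' p (p + 3) q (q + 3)) :
    s = s' ∧ c = c' := by
  obtain ⟨S, hS, hS'⟩ : ∃ S : ℕ, S ∈ [2, 3] ∧ s = (S : ℤ) := by
    rcases hs with rfl | rfl
    · exact ⟨2, by simp, rfl⟩
    · exact ⟨3, by simp, rfl⟩
  obtain ⟨T, hT, hT'⟩ : ∃ T : ℕ, T ∈ [2, 3] ∧ s' = (T : ℤ) := by
    rcases hs' with rfl | rfl
    · exact ⟨2, by simp, rfl⟩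
    · exact ⟨3, by simp, rfl⟩
  obtain ⟨u, hu⟩ : ∃ u : ℕ, (u : ℤ) = (c - p - s * q) % 5 :=
    ⟨((c - p - s * q) % 5).toNat, by omega⟩
  obtain ⟨u', hu'⟩ : ∃ u' : ℕ, (u' : ℤ) = (c' - p - s' * q) % 5 :=
    ⟨((c' - p - s' * q) % 5).toNat, by omega⟩
  have hcell : ∀ x < 4, ∀ y < 4, ((x + S * y) % 5 = u ↔ (x + T * y) % 5 = u') := by
    intro x hx y hy
    have h1 := h (p + x) (q + y) (by omega) (by omega) (by omega) (by omega)
    have h2 := h' (p + x) (q + y) (by omega) (by omega) (by omega) (by omega)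
    have h3 := h1.symm.trans h2
    have e1 : ((x + S * y) % 5 = u ↔ (p + (x : ℤ) + s * (q + (y : ℤ))) % 5 = c) := by
      have h4 : p + (x : ℤ) + s * (q + (y : ℤ)) = p + x + (s * q + ((S * y : ℕ) : ℤ)) := by
        rw [hS']
        push_cast
        ring
      rw [h4]
      generalize s * q = w at hu ⊢
      generalize S * y = z
      omega
    have e2 : ((x + T * y) % 5 = u' ↔ (p + (x : ℤ) + s' * (q + (y : ℤ))) % 5 = c') := by
      have h4 : p + (x : ℤ) + s' * (q + (y : ℤ)) = p + x + (s' * q + ((T * y : ℕ) : ℤ)) := by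
        rw [hT']
        push_cast
        ring
      rw [h4]
      generalize s' * q = w at hu' ⊢
      generalize T * y = z
      omega
    rw [e1, e2]
    exact h3
  obtain ⟨h5, h6⟩ := RigG_dec S hS T hT u (by omega) u' (by omega) hcell
  have h7 : s = s' := by rw [hS', hT', h5]
  refine ⟨h7, ?_⟩
  rw [← h7] at hu'
  have h8 : (c - p - s * q) % 5 = (c' - p - s * q) % 5 := by
    rw [← hu, ← hu', h6]
  generalize s * q = w at h8
  omega

private theorem RigG_mono {d : ℤ → ℤ → ℤ} {s c r1 r2 c1 c2 r1' r2' c1' c2' : ℤ}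
    (h : Lat d s c r1 r2 c1 c2) (h1 : r1 ≤ r1') (h2 : r2' ≤ r2) (h3 : c1 ≤ c1') (h4 : c2' ≤ c2) :
    Lat d s c r1' r2' c1' c2' := fun i j a1 a2 a3 a4 =>
  h i j (h1.trans a1) (a2.trans h2) (h3.trans a3) (a4.trans h4)

theorem rigG (h : RigLStmt) : RigGStmt := by
  intro d r1 r2 c1 c2 hb hr hc ha
  have hloc : ∀ x y : ℤ, r1 + 3 ≤ x → x ≤ r2 - 3 → c1 + 3 ≤ y → y ≤ c2 - 3 →
      ∃ s c : ℤ, (s = 2 ∨ s = 3) ∧ 0 ≤ c ∧ c ≤ 4 ∧ Lat d s c (x - 2) (x + 2) (y - 2) (y + 2) := by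
    intro x y h1 h2 h3 h4
    exact h d x y hb fun i j a1 a2 a3 a4 =>
      ha i j (by omega) (by omega) (by omega) (by omega)
  obtain ⟨s, c, hs, hc0, hc4, hL⟩ := hloc (r1 + 3) (c1 + 3) (by omega) (by omega) (by omega)
    (by omega)
  have hrow : ∀ k : ℕ, r1 + 3 + k ≤ r2 - 3 →
      Lat d s c (r1 + 3 + k - 2) (r1 + 3 + k + 2) (c1 + 3 - 2) (c1 + 3 + 2) := by
    intro k
    induction k with
    | zero =>
      intro _
      simpa using hL
    | succ k ih =>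
      intro hk
      push_cast at hk ⊢
      have h1 := ih (by omega)
      obtain ⟨s', c', hs', hc0', hc4', hL'⟩ := hloc (r1 + 3 + (k + 1)) (c1 + 3) (by omega) hk
        (by omega) (by omega)
      have h2 := RigG_key (p := r1 + 3 + k - 1) (q := c1 + 1) hs hs' hc0 hc4 hc0' hc4'
        (RigG_mono h1 (by omega) (by omega) (by omega) (by omega))
        (RigG_mono hL' (by omega) (by omega) (by omega) (by omega))
      rw [h2.1, h2.2]
      exact hL'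
  have hall : ∀ k : ℕ, r1 + 3 + k ≤ r2 - 3 → ∀ l : ℕ, c1 + 3 + l ≤ c2 - 3 →
      Lat d s c (r1 + 3 + k - 2) (r1 + 3 + k + 2) (c1 + 3 + l - 2) (c1 + 3 + l + 2) := by
    intro k hk l
    induction l with
    | zero =>
      intro _
      simpa using hrow k hk
    | succ l ih =>
      intro hl
      push_cast at hl ⊢
      have h1 := ih (by omega)
      obtain ⟨s', c', hs', hc0', hc4', hL'⟩ := hloc (r1 + 3 + k) (c1 + 3 + (l + 1)) (by omega) hk
        (by omega) hl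
      have h2 := RigG_key (p := r1 + 3 + k - 2) (q := c1 + 3 + l - 1) hs hs' hc0 hc4 hc0' hc4'
        (RigG_mono h1 (by omega) (by omega) (by omega) (by omega))
        (RigG_mono hL' (by omega) (by omega) (by omega) (by omega))
      rw [h2.1, h2.2]
      exact hL'
  refine ⟨s, c, hs, hc0, hc4, fun i j hi1 hi2 hj1 hj2 => ?_⟩
  have hk : ∃ k : ℕ, r1 + 3 + (k : ℤ) ≤ r2 - 3 ∧ r1 + 3 + (k : ℤ) - 2 ≤ i ∧
      i ≤ r1 + 3 + (k : ℤ) + 2 := by
    refine ⟨(max (r1 + 3) (min i (r2 - 3)) - (r1 + 3)).toNat, ?_, ?_, ?_⟩ <;> omega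
  have hl : ∃ l : ℕ, c1 + 3 + (l : ℤ) ≤ c2 - 3 ∧ c1 + 3 + (l : ℤ) - 2 ≤ j ∧
      j ≤ c1 + 3 + (l : ℤ) + 2 := by
    refine ⟨(max (c1 + 3) (min j (c2 - 3)) - (c1 + 3)).toNat, ?_, ?_, ?_⟩ <;> omega
  obtain ⟨k, hk1, hk2, hk3⟩ := hk
  obtain ⟨l, hl1, hl2, hl3⟩ := hl
  exact hall k hk1 l hl1 i j hk2 hk3 hl2 hl3

end PatGap
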