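import Pool.Agent.H.MP_b28609_co.Gap.Stmt
import Pool.Agent.H.MP_b28609_co.Def

/-!
# MP_b28609_co, gap theorem: from the grid graph to functions on `ℤ × ℤ`

The vertex `(i, j)` of the grid is the cell `(i + 1, j + 1)`.
-/

set_option autoImplicit false

namespace PatGap

open PatDom

open Classical in
/-- The indicator function of a set of vertices of the grid. -/
noncomputable def ind {m n : ℕ} (D : Finset (Fin m × Fin n)) : ℤ → ℤ → ℤ :=
  fun i j => if ∃ v ∈ D, (v.1.val : ℤ) + 1 = i ∧ (v.2.val : ℤ) + 1 = j then 1 else 0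

/-- The cell of a vertex. -/
def cell {m n : ℕ} (v : Fin m × Fin n) : ℤ × ℤ := ((v.1.val : ℤ) + 1, (v.2.val : ℤ) + 1)

theorem cell_inj {m n : ℕ} {v w : Fin m × Fin n} (h : cell v = cell w) : v = w := by
  unfold cell at h
  rw [Prod.mk.injEq] at h
  obtain ⟨h1, h2⟩ := h
  apply Prod.ext
  · apply Fin.ext
    omega
  · apply Fin.ext
    omega

theorem ind_one {m n : ℕ} (D : Finset (Fin m × Fin n)) (i j : ℤ) :
    ind D i j = 1 ↔ ∃ v ∈ D, cell v = (i, j) := by
  unfold ind cell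
  simp only [Prod.mk.injEq]
  split_ifs with h
  · exact ⟨fun _ => h, fun _ => rfl⟩
  · exact ⟨fun h0 => absurd h0 (by norm_num), fun h0 => absurd h0 h⟩

theorem ind_cell {m n : ℕ} (D : Finset (Fin m × Fin n)) (v : Fin m × Fin n) (h : v ∈ D) :
    ind D (cell v).1 (cell v).2 = 1 :=
  (ind_one D _ _).2 ⟨v, h, rfl⟩

theorem ind_bin {m n : ℕ} (D : Finset (Fin m × Fin n)) (i j : ℤ) :
    ind D i j = 0 ∨ ind D i j = 1 := by
  unfold ind
  split_ifs with h
  · exact Or.inr rfl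
  · exact Or.inl rfl

theorem ind_nn {m n : ℕ} (D : Finset (Fin m × Fin n)) (i j : ℤ) : 0 ≤ ind D i j := by
  rcases ind_bin D i j with h | h <;> omega

theorem ind_dom {m n : ℕ} (D : Finset (Fin m × Fin n)) (h : Dom (grid m n) D) :
    DomG m n (ind D) := by
  refine ⟨ind_bin D, ?_, ?_⟩
  · intro i j hij
    rcases ind_bin D i j with h0 | h0
    · exact h0
    · exfalso
      obtain ⟨v, -, hv⟩ := (ind_one D i j).1 h0
      unfold cell at hv
      rw [Prod.mk.injEq] at hv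
      obtain ⟨h1, h2⟩ := hv
      have := v.1.isLt
      have := v.2.isLt
      apply hij
      omega
  · intro i j hi1 hi2 hj1 hj2
    obtain ⟨p, rfl⟩ : ∃ p : ℕ, i = (p : ℤ) + 1 := ⟨(i - 1).toNat, by omega⟩
    obtain ⟨q, rfl⟩ : ∃ q : ℕ, j = (q : ℤ) + 1 := ⟨(j - 1).toNat, by omega⟩
    have hp : p < m := by omega
    have hq : q < n := by omega
    have g0 := ind_nn D ((p : ℤ) + 1) ((q : ℤ) + 1)
    have g1 := ind_nn D ((p : ℤ) + 1 - 1) ((q : ℤ) + 1)
    have g2 := ind_nn D ((p : ℤ) + 1 + 1) ((q : ℤ) + 1)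
    have g3 := ind_nn D ((p : ℤ) + 1) ((q : ℤ) + 1 - 1)
    have g4 := ind_nn D ((p : ℤ) + 1) ((q : ℤ) + 1 + 1)
    unfold a
    by_cases hv : ((⟨p, hp⟩ : Fin m), (⟨q, hq⟩ : Fin n)) ∈ D
    · have h1 : ind D ((p : ℤ) + 1) ((q : ℤ) + 1) = 1 := (ind_one D _ _).2 ⟨_, hv, rfl⟩
      omega
    · obtain ⟨u, hu, had⟩ := h _ hv
      rw [grid_adj] at had
      have h1 := ind_cell D u hu
      obtain ⟨⟨x, hx⟩, ⟨y, hy⟩⟩ := u
      simp only [cell] at h1
      simp only [Fin.mk.injEq] at had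
      rcases had with ⟨h2 | h2, h3⟩ | ⟨h2 | h2, h3⟩
      · subst h3
        rw [show ((x : ℤ) + 1) = (p : ℤ) + 1 + 1 by omega] at h1
        omega
      · subst h3
        rw [show ((x : ℤ) + 1) = (p : ℤ) + 1 - 1 by omega] at h1
        omega
      · subst h3
        rw [show ((y : ℤ) + 1) = (q : ℤ) + 1 + 1 by omega] at h1
        omega
      · subst h3
        rw [show ((y : ℤ) + 1) = (q : ℤ) + 1 - 1 by omega] at h1
        omega

theorem ind_tot {m n : ℕ} (D : Finset (Fin m × Fin n)) : tot m n (ind D) = D.card := by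
  classical
  unfold tot
  rw [← Finset.sum_product']
  have h1 : ∀ p : ℤ × ℤ, ind D p.1 p.2 = if p ∈ D.image cell then 1 else 0 := by
    intro p
    rcases ind_bin D p.1 p.2 with h0 | h0
    · rw [h0, if_neg]
      intro hp
      obtain ⟨v, hv, hvp⟩ := Finset.mem_image.1 hp
      have := (ind_one D p.1 p.2).2 ⟨v, hv, hvp⟩
      omega
    · rw [h0, if_pos]
      obtain ⟨v, hv, hvp⟩ := (ind_one D p.1 p.2).1 h0
      exact Finset.mem_image.2 ⟨v, hv, hvp⟩
  rw [Finset.sum_congr rfl (fun p _ => h1 p), Finset.sum_ite_mem, Finset.sum_const, nsmul_eq_mul,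
    mul_one]
  have h2 : Finset.Icc (1 : ℤ) m ×ˢ Finset.Icc (1 : ℤ) n ∩ D.image cell = D.image cell := by
    rw [Finset.inter_eq_right]
    intro p hp
    obtain ⟨v, hv, rfl⟩ := Finset.mem_image.1 hp
    have := v.1.isLt
    have := v.2.isLt
    rw [Finset.mem_product, Finset.mem_Icc, Finset.mem_Icc]
    simp only [cell]
    omega
  rw [h2, Finset.card_image_of_injective _ (fun v w h => cell_inj h)]

theorem nb_cell {m n : ℕ} (v w : Fin m × Fin n) (h : (grid m n).Adj v w) :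
    Nb (cell v) (cell w) := by
  rw [grid_adj] at h
  simp only [Nb, cell]
  rcases h with ⟨h2 | h2, h3⟩ | ⟨h2 | h2, h3⟩
  · rw [h3]
    right
    omega
  · rw [h3]
    right
    omega
  · rw [h3]
    left
    omega
  · rw [h3]
    left
    omega

theorem ind_mv {m n : ℕ} (D D' : Finset (Fin m × Fin n)) (φ : D ≃ D')
    (h : ∀ v : D, (grid m n).Adj (v : Fin m × Fin n) (φ v : Fin m × Fin n)) :
    ∃ f : ℤ × ℤ → ℤ × ℤ, Mv (ind D) (ind D') f := by
  classical
  refine ⟨fun p => if hp : ∃ v : D, cell (v : Fin m × Fin n) = p then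
    cell (φ hp.choose : Fin m × Fin n) else p, ?_⟩
  have key : ∀ v : D, (if hp : ∃ w : D, cell (w : Fin m × Fin n) = cell (v : Fin m × Fin n) then
      cell (φ hp.choose : Fin m × Fin n) else cell (v : Fin m × Fin n)) =
      cell (φ v : Fin m × Fin n) := by
    intro v
    have hp : ∃ w : D, cell (w : Fin m × Fin n) = cell (v : Fin m × Fin n) := ⟨v, rfl⟩
    rw [dif_pos hp]
    have h1 : hp.choose = v := Subtype.ext (cell_inj hp.choose_spec)
    rw [h1]
  have lift : ∀ p : ℤ × ℤ, ind D p.1 p.2 = 1 → ∃ v : D, cell (v : Fin m × Fin n) = p := by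
    intro p hp
    obtain ⟨v, hv, hvp⟩ := (ind_one D p.1 p.2).1 hp
    exact ⟨⟨v, hv⟩, hvp⟩
  refine ⟨?_, ?_, ?_, ?_⟩
  · intro p hp
    obtain ⟨v, rfl⟩ := lift p hp
    show ind D' (dite _ _ _ : ℤ × ℤ).1 (dite _ _ _ : ℤ × ℤ).2 = 1
    rw [key v]
    exact ind_cell D' _ (φ v).2
  · intro p hp
    obtain ⟨v, rfl⟩ := lift p hp
    show Nb _ (dite _ _ _)
    rw [key v]
    exact nb_cell _ _ (h v)
  · intro p q hp hq hpq
    obtain ⟨v, rfl⟩ := lift p hp
    obtain ⟨w, rfl⟩ := lift q hq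
    have h1 : cell (φ v : Fin m × Fin n) = cell (φ w : Fin m × Fin n) := by
      rw [← key v, ← key w]
      exact hpq
    have h2 : φ v = φ w := Subtype.ext (cell_inj h1)
    rw [φ.injective h2]
  · intro q hq
    obtain ⟨w, hw, hwq⟩ := (ind_one D' q.1 q.2).1 hq
    refine ⟨cell (φ.symm ⟨w, hw⟩ : Fin m × Fin n), ind_cell D _ (φ.symm ⟨w, hw⟩).2, ?_⟩
    show (dite _ _ _ : ℤ × ℤ) = q
    rw [key (φ.symm ⟨w, hw⟩), Equiv.apply_symm_apply]
    exact hwq

end PatGap
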