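import Pool.Agent.H.MP_b28609_co.Gap.Stmt

/-!
# MP_b28609_co, gap theorem, second part: statements of the modules

Long grids: if some 240 columns are clean, then all guards cross them in the same direction, which
costs `m` in each of the two sets.
-/

set_option autoImplicit false

noncomputable section

namespace PatGap

/-- Number of guards in the column `j`. -/
def col (m : ℤ) (d : ℤ → ℤ → ℤ) (j : ℤ) : ℤ := ∑ i ∈ Finset.Icc (1 : ℤ) m, d i j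

/-- Reflection of the columns. -/
def rf (n : ℤ) (d : ℤ → ℤ → ℤ) : ℤ → ℤ → ℤ := fun i j => d i (n + 1 - j)

/-- Module Half: the left part of a grid. -/
def HalfStmt : Prop :=
  ∀ G, SideProp G → ∀ (m n w : ℤ) (d : ℤ → ℤ → ℤ), 30 ≤ m → 11 ≤ w → w ≤ n → DomG m n d →
    m * w + m + 2 * w - 166 + col m d w - col m d (w + 1) ≤ 5 * tot m w d

/-- Module Ref: reflection. -/
def RefStmt : Prop :=
  ∀ (m n w : ℤ) (d : ℤ → ℤ → ℤ), DomG m n d → 0 ≤ w → w ≤ n →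
    DomG m n (rf n d) ∧ tot m n d = tot m w d + tot m (n - w) (rf n d) ∧
      ∀ j, col m (rf n d) j = col m d (n + 1 - j)

/-- Module FluxE: flux through the line between the columns `w` and `w + 1`. -/
def FluxEStmt : Prop :=
  ∀ (d d' : ℤ → ℤ → ℤ) (f : ℤ × ℤ → ℤ × ℤ) (m n w : ℤ), DomG m n d → DomG m n d' → Mv d d' f →
    30 ≤ m → 1 ≤ w → w ≤ n →
    (∀ i, 12 ≤ i → i ≤ m - 11 → d i w = 1 → f (i, w) = (i, w + 1)) →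
    (∀ i, 12 ≤ i → i ≤ m - 11 → d i (w + 1) = 1 → f (i, w + 1) = (i, w + 2)) →
    ∑ i ∈ Finset.Icc (12 : ℤ) (m - 11), d i w - 22 ≤ tot m w d - tot m w d'

/-- Module Cnt: counting a residue class. -/
def CntStmt : Prop :=
  ∀ (e : ℤ → ℤ) (s b c r1 r2 : ℤ), (s = 2 ∨ s = 3) → 0 ≤ c → c ≤ 4 → (∀ i, e i = 0 ∨ e i = 1) →
    r1 ≤ r2 + 1 → (∀ i, r1 ≤ i → i ≤ r2 → (e i = 1 ↔ (b + s * i) % 5 = c)) →
    r2 - r1 + 1 - 4 ≤ 5 * ∑ i ∈ Finset.Icc r1 r2, e i ∧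
      5 * ∑ i ∈ Finset.Icc r1 r2, e i ≤ r2 - r1 + 1 + 4

/-- Module HBand: in clean columns all guards move to the right, or all guards move to the left. -/
def HBandStmt : Prop :=
  ∀ (G : (ℤ → ℤ → ℤ) → ℤ → ℤ) (m n : ℤ) (d d' : ℤ → ℤ → ℤ) (f : ℤ × ℤ → ℤ × ℤ) (q : ℤ),
    SideProp G → DomG m n d → DomG m n d' → Mv d d' f → 60 ≤ m →
    Clean G m (tr d) q → Clean G m (tr d') q →
    ∃ s c c' : ℤ, (s = 2 ∨ s = 3) ∧ 0 ≤ c ∧ c ≤ 4 ∧ 0 ≤ c' ∧ c' ≤ 4 ∧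
      (∀ i j, 12 ≤ i → i ≤ m - 11 → q + 2 ≤ j → j ≤ q + 239 → (d i j = 1 ↔ (j + s * i) % 5 = c)) ∧
      (∀ i j, 12 ≤ i → i ≤ m - 11 → q + 2 ≤ j → j ≤ q + 239 → (d' i j = 1 ↔ (j + s * i) % 5 = c')) ∧
      ((∀ i j, 12 ≤ i → i ≤ m - 11 → q + 5 ≤ j → j ≤ q + 235 → d i j = 1 → f (i, j) = (i, j + 1)) ∨
       (∀ g : ℤ × ℤ → ℤ × ℤ, Mv d' d g →
         ∀ i j, 12 ≤ i → i ≤ m - 11 → q + 5 ≤ j → j ≤ q + 235 → d' i j = 1 → g (i, j) = (i, j + 1)))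

/-- Module CaseR: all guards in clean columns move to the right. -/
def CaseRStmt : Prop :=
  ∀ (G : (ℤ → ℤ → ℤ) → ℤ → ℤ) (m n : ℤ) (d d' : ℤ → ℤ → ℤ) (f : ℤ × ℤ → ℤ × ℤ) (q s c c' : ℤ),
    SideProp G → DomG m n d → DomG m n d' → Mv d d' f → 60 ≤ m → 10 ≤ q → q + 250 ≤ n →
    (s = 2 ∨ s = 3) → 0 ≤ c → c ≤ 4 → 0 ≤ c' → c' ≤ 4 →
    (∀ i j, 12 ≤ i → i ≤ m - 11 → q + 2 ≤ j → j ≤ q + 239 → (d i j = 1 ↔ (j + s * i) % 5 = c)) →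
    (∀ i j, 12 ≤ i → i ≤ m - 11 → q + 2 ≤ j → j ≤ q + 239 → (d' i j = 1 ↔ (j + s * i) % 5 = c')) →
    (∀ i j, 12 ≤ i → i ≤ m - 11 → q + 5 ≤ j → j ≤ q + 235 → d i j = 1 → f (i, j) = (i, j + 1)) →
    m * n + 3 * m + 2 * n - 516 ≤ 5 * tot m n d

/-- Module CaseB: clean columns. -/
def CaseBStmt : Prop :=
  ∀ (G : (ℤ → ℤ → ℤ) → ℤ → ℤ) (m n : ℤ) (d d' : ℤ → ℤ → ℤ) (f : ℤ × ℤ → ℤ × ℤ) (q : ℤ),
    SideProp G → DomG m n d → DomG m n d' → Mv d d' f → tot m n d = tot m n d' → 60 ≤ m →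
    10 ≤ q → q + 250 ≤ n → Clean G m (tr d) q → Clean G m (tr d') q →
    m * n + 3 * m + 2 * n - 516 ≤ 5 * tot m n d

/-- Module FinB: the two cases. -/
def FinBStmt : Prop :=
  ∀ (m n : ℤ) (d d' : ℤ → ℤ → ℤ) (f : ℤ × ℤ → ℤ × ℤ), 60 ≤ m → 300 ≤ n → DomG m n d →
    DomG m n d' → Mv d d' f → tot m n d = tot m n d' →
    m * n + 3 * m + 2 * n - 516 ≤ 5 * tot m n d ∨
      2 * (m * n + 2 * (m + n) - 248) + (n - 20) / 240 ≤ 10 * tot m n d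

end PatGap
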