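import Pool.Agent.H.MP_b28609_co.Gap.Stmt

/-!
# MP_b28609_co, gap theorem: the lower bounds from the assembled inequality

`base`: all terms of `AsmStmt` are nonnegative. `fin`: add the inequalities for `d` and `d'`; either no horizontal
band of 240 rows is clean for both, or no vertical band is; in both cases the slacks have sum at least `K`.
-/

set_option autoImplicit false

namespace PatGap

private theorem fin_a_tr (d : ℤ → ℤ → ℤ) (i j : ℤ) : a (tr d) i j = a d j i := by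
  unfold a tr
  ring

private theorem fin_dom_tr {m n : ℤ} {d : ℤ → ℤ → ℤ} (h : DomG m n d) : DomG n m (tr d) := by
  obtain ⟨hb, hs, hd⟩ := h
  refine ⟨fun i j => hb j i, fun i j hij => hs j i fun h => hij ?_, fun i j h1 h2 h3 h4 => ?_⟩
  · exact ⟨h.2.2.1, h.2.2.2, h.1, h.2.1⟩
  · rw [fin_a_tr]
    exact hd j i h3 h4 h1 h2

private theorem fin_left {m n : ℤ} {d : ℤ → ℤ → ℤ} (h : DomG m n d) :
    ∀ i j, j ≤ 0 → d i j = 0 := fun i j hj => h.2.1 i j fun h' => by omega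

private theorem fin_sg {G : (ℤ → ℤ → ℤ) → ℤ → ℤ} (hG : SideProp G) {m n : ℤ} {d : ℤ → ℤ → ℤ}
    (h : DomG m n d) (hn : 30 ≤ n) {i : ℤ} (h1 : 11 ≤ i) (h2 : i ≤ m - 10) : 0 ≤ sg G d i :=
  (hG d h.1 (fin_left h)).2 i fun j hj1 hj2 => h.2.2 (i - 1) j (by omega) (by omega) hj1 (by omega)

private theorem fin_mid {m n : ℤ} {d : ℤ → ℤ → ℤ} (h : DomG m n d) {i j : ℤ} (h1 : 11 ≤ i)
    (h2 : i ≤ m - 10) (h3 : 11 ≤ j) (h4 : j ≤ n - 10) : 0 ≤ a d i j - 1 := by
  have := h.2.2 i j (by omega) (by omega) (by omega) (by omega)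
  omega

private theorem fin_exr {G : (ℤ → ℤ → ℤ) → ℤ → ℤ} (hG : SideProp G) {m n : ℤ} {d : ℤ → ℤ → ℤ}
    (h : DomG m n d) (hn : 30 ≤ n) {i : ℤ} (h1 : 11 ≤ i) (h2 : i ≤ m - 10) :
    0 ≤ exr G n d i := by
  unfold exr
  refine add_nonneg (fin_sg hG h hn h1 h2) (Finset.sum_nonneg fun j hj => ?_)
  rw [Finset.mem_Icc] at hj
  exact fin_mid h h1 h2 hj.1 hj.2

/-- rows without excess are clean -/
private theorem fin_clean {G : (ℤ → ℤ → ℤ) → ℤ → ℤ} (hG : SideProp G) {m n : ℤ}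
    {d : ℤ → ℤ → ℤ} (h : DomG m n d) (hn : 30 ≤ n) {r : ℤ} (hr : 10 ≤ r) (hr' : r + 250 ≤ m)
    (h0 : ∀ i, r + 1 ≤ i → i ≤ r + 240 → exr G n d i ≤ 0) : Clean G n d r := by
  intro i hi1 hi2
  have h1 : 11 ≤ i := by omega
  have h2 : i ≤ m - 10 := by omega
  have h3 := h0 i hi1 hi2
  have h4 := fin_sg hG h hn h1 h2
  have h5 : ∀ j ∈ Finset.Icc (11 : ℤ) (n - 10), 0 ≤ a d i j - 1 := fun j hj => by
    rw [Finset.mem_Icc] at hj
    exact fin_mid h h1 h2 hj.1 hj.2
  have h6 := Finset.sum_nonneg h5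
  unfold exr at h3
  have h7 : ∑ j ∈ Finset.Icc (11 : ℤ) (n - 10), (a d i j - 1) = 0 := by linarith
  refine ⟨by linarith, fun j hj1 hj2 => ?_⟩
  have h8 := (Finset.sum_eq_zero_iff_of_nonneg h5).1 h7 j (Finset.mem_Icc.2 ⟨hj1, hj2⟩)
  linarith

/-- one positive term in every band -/
private theorem fin_band (F : ℤ → ℤ) (K : ℕ) (M : ℤ) (hM : 10 + 240 * (K : ℤ) ≤ M)
    (h0 : ∀ i, 11 ≤ i → i ≤ M → 0 ≤ F i)
    (h1 : ∀ k : ℕ, k < K → ∃ i : ℤ, 10 + 240 * (k : ℤ) + 1 ≤ i ∧ i ≤ 10 + 240 * (k : ℤ) + 240 ∧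
      1 ≤ F i) : (K : ℤ) ≤ ∑ i ∈ Finset.Icc (11 : ℤ) M, F i := by
  have key : ∀ L : ℕ, L ≤ K →
      (L : ℤ) ≤ ∑ i ∈ Finset.Icc (11 : ℤ) (10 + 240 * (L : ℤ)), F i := by
    intro L
    induction L with
    | zero =>
      intro _
      simp
    | succ L ih =>
      intro hL
      have h2 := ih (by omega)
      obtain ⟨i, hi1, hi2, hi3⟩ := h1 L (by omega)
      have h3 : i ∉ Finset.Icc (11 : ℤ) (10 + 240 * (L : ℤ)) := by
        rw [Finset.mem_Icc]
        omega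
      have h4 : insert i (Finset.Icc (11 : ℤ) (10 + 240 * (L : ℤ))) ⊆
          Finset.Icc (11 : ℤ) (10 + 240 * ((L + 1 : ℕ) : ℤ)) := by
        intro x hx
        rw [Finset.mem_insert, Finset.mem_Icc] at hx
        rw [Finset.mem_Icc]
        push_cast
        rcases hx with rfl | hx <;> omega
      have h5 := Finset.sum_le_sum_of_subset_of_nonneg (f := F) h4 fun x hx _ => by
        rw [Finset.mem_Icc] at hx
        push_cast at hx
        refine h0 x hx.1 ?_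
        have h6 : ((L + 1 : ℕ) : ℤ) ≤ K := by exact_mod_cast hL
        push_cast at h6
        omega
      rw [Finset.sum_insert h3] at h5
      push_cast at h5 ⊢
      linarith
  refine (key K le_rfl).trans (Finset.sum_le_sum_of_subset_of_nonneg ?_ fun x hx _ => ?_)
  · intro x hx
    rw [Finset.mem_Icc] at hx ⊢
    omega
  · rw [Finset.mem_Icc] at hx
    exact h0 x hx.1 hx.2

/-- no band is clean for both: the excess of the rows is at least the number of the bands -/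
private theorem fin_rows {G : (ℤ → ℤ → ℤ) → ℤ → ℤ} (hG : SideProp G) {m n : ℤ}
    {d d' : ℤ → ℤ → ℤ} (h : DomG m n d) (h' : DomG m n d') (hn : 30 ≤ n) (K : ℕ)
    (hK : 20 + 240 * (K : ℤ) ≤ m)
    (hc : ∀ k : ℕ, k < K →
      ¬ (Clean G n d (10 + 240 * (k : ℤ)) ∧ Clean G n d' (10 + 240 * (k : ℤ)))) :
    (K : ℤ) ≤ ∑ i ∈ Finset.Icc (11 : ℤ) (m - 10), (exr G n d i + exr G n d' i) := by
  refine fin_band (fun i => exr G n d i + exr G n d' i) K (m - 10) (by omega) ?_ ?_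
  · intro i h1 h2
    exact add_nonneg (fin_exr hG h hn h1 h2) (fin_exr hG h' hn h1 h2)
  · intro k hk
    by_contra hcon
    push Not at hcon
    have hk' : (k : ℤ) + 1 ≤ K := by exact_mod_cast hk
    refine hc k hk ⟨?_, ?_⟩
    · refine fin_clean hG h hn (by omega) (by omega) fun i hi1 hi2 => ?_
      have h2 := hcon i hi1 hi2
      have h3 := fin_exr hG h' hn (i := i) (by omega) (by omega)
      omega
    · refine fin_clean hG h' hn (by omega) (by omega) fun i hi1 hi2 => ?_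
      have h2 := hcon i hi1 hi2
      have h3 := fin_exr hG h hn (i := i) (by omega) (by omega)
      omega

private theorem fin_nonneg_tr {G : (ℤ → ℤ → ℤ) → ℤ → ℤ} (hG : SideProp G) {m n : ℤ}
    {d : ℤ → ℤ → ℤ} (h : DomG m n d) (hn : 30 ≤ n) :
    0 ≤ ∑ i ∈ Finset.Icc (11 : ℤ) (m - 10), sg G d i :=
  Finset.sum_nonneg fun i hi => by
    rw [Finset.mem_Icc] at hi
    exact fin_sg hG h hn hi.1 hi.2

theorem base (hS : SideStmt) (hA : AsmStmt) : BaseStmt := by
  intro m n d hm hn hd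
  obtain ⟨G, hG⟩ := hS
  have h1 := hA G hG m n d hm hn hd
  have h2 := fin_nonneg_tr hG hd hn
  have h3 := fin_nonneg_tr hG (fin_dom_tr hd) hm
  have h4 : 0 ≤ ∑ i ∈ Finset.Icc (11 : ℤ) (m - 10), ∑ j ∈ Finset.Icc (11 : ℤ) (n - 10),
      (a d i j - 1) :=
    Finset.sum_nonneg fun i hi => Finset.sum_nonneg fun j hj => by
      rw [Finset.mem_Icc] at hi hj
      exact fin_mid hd hi.1 hi.2 hj.1 hj.2
  linarith

theorem fin (hS : SideStmt) (hA : AsmStmt) (hC : CrossStmt) : FinStmt := by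
  intro m n d d' f hm hn hd hd' hf ht
  obtain ⟨G, hG⟩ := hS
  have h1 := hA G hG m n d (by omega) (by omega) hd
  have h1' := hA G hG m n d' (by omega) (by omega) hd'
  rw [← ht] at h1'
  obtain ⟨K, hK⟩ : ∃ K : ℕ, (K : ℤ) = (min m n - 20) / 240 :=
    ⟨((min m n - 20) / 240).toNat, Int.toNat_of_nonneg (by omega)⟩
  rw [← hK]
  have hKm : 20 + 240 * (K : ℤ) ≤ m := by omega
  have hKn : 20 + 240 * (K : ℤ) ≤ n := by omega
  have a1 := fin_nonneg_tr hG hd (by omega)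
  have a1' := fin_nonneg_tr hG hd' (by omega)
  have a2 := fin_nonneg_tr hG (fin_dom_tr hd) (by omega)
  have a2' := fin_nonneg_tr hG (fin_dom_tr hd') (by omega)
  by_cases hc : ∀ k : ℕ, k < K →
      ¬ (Clean G n d (10 + 240 * (k : ℤ)) ∧ Clean G n d' (10 + 240 * (k : ℤ)))
  · have h2 := fin_rows hG hd hd' (by omega) K hKm hc
    unfold exr at h2
    rw [Finset.sum_add_distrib, Finset.sum_add_distrib, Finset.sum_add_distrib] at h2
    linarith
  · push Not at hc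
    obtain ⟨k, hk, hc1, hc2⟩ := hc
    have hk' : (k : ℤ) + 1 ≤ K := by exact_mod_cast hk
    have h2 := fin_rows hG (fin_dom_tr hd) (fin_dom_tr hd') (by omega) K hKn fun l hl hcon => by
      have hl' : (l : ℤ) + 1 ≤ K := by exact_mod_cast hl
      exact hC G m n d d' f (10 + 240 * (k : ℤ)) (10 + 240 * (l : ℤ)) hG hd hd' hf hm hn
        (by omega) (by omega) (by omega) (by omega) ⟨hc1, hc2, hcon.1, hcon.2⟩
    unfold exr at h2
    rw [Finset.sum_add_distrib, Finset.sum_add_distrib, Finset.sum_add_distrib] at h2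
    simp only [fin_a_tr] at h2
    rw [Finset.sum_comm (s := Finset.Icc (11 : ℤ) (n - 10)) (f := fun i j => a d j i - 1),
      Finset.sum_comm (s := Finset.Icc (11 : ℤ) (n - 10)) (f := fun i j => a d' j i - 1)] at h2
    linarith

end PatGap
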