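import Pool.Agent.H.MP_b28609_co.Gap.Stmt2

/-!
# MP_b28609_co, gap theorem, module FluxE: flux through the line between two columns
-/

set_option autoImplicit false

namespace PatGap

open Finset

private theorem fluxE_sum (e : ℤ → ℤ → ℤ) (he : Bin e) (A B : Finset ℤ) :
    ∑ i ∈ A, ∑ j ∈ B, e i j = (((A ×ˢ B).filter fun v : ℤ × ℤ => e v.1 v.2 = 1).card : ℤ) := by
  rw [Finset.card_filter, Nat.cast_sum, Finset.sum_product]
  refine Finset.sum_congr rfl fun i _ => Finset.sum_congr rfl fun j _ => ?_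
  rcases he i j with h | h
  · simp [h]
  · simp [h]

theorem fluxE : FluxEStmt := by
  classical
  intro d d' f m n w hD hD' hf hm hw hwn hr1 hr2
  obtain ⟨hd, hz, -⟩ := hD
  obtain ⟨hd', -, -⟩ := hD'
  have hX := fluxE_sum d hd (Icc 1 m) (Icc (1 : ℤ) w)
  have hY := fluxE_sum d' hd' (Icc 1 m) (Icc (1 : ℤ) w)
  set X := ((Icc 1 m) ×ˢ (Icc (1 : ℤ) w)).filter
    fun v : ℤ × ℤ => d v.1 v.2 = 1 with hXd
  set Y := ((Icc 1 m) ×ˢ (Icc (1 : ℤ) w)).filter
    fun v : ℤ × ℤ => d' v.1 v.2 = 1 with hYd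
  have hO := fluxE_sum d hd (Icc 12 (m - 11)) {w}
  set O := ((Icc 12 (m - 11)) ×ˢ ({w} : Finset ℤ)).filter
    fun v : ℤ × ℤ => d v.1 v.2 = 1 with hOd
  have hO' : ∑ i ∈ Icc 12 (m - 11), d i w = (O.card : ℤ) := by
    rw [← hO]
    exact Finset.sum_congr rfl fun i _ => by rw [Finset.sum_singleton]
  set In : Finset (ℤ × ℤ) := (Icc 1 11 ∪ Icc (m - 10) m) ×ˢ ({w + 1} : Finset ℤ) with hIn
  have hIn22 : In.card ≤ 22 := by
    rw [hIn, Finset.card_product, Finset.card_singleton, mul_one]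
    refine (Finset.card_union_le _ _).trans ?_
    rw [Int.card_Icc, Int.card_Icc]
    omega
  have hOX : O ⊆ X := by
    intro v hv
    simp only [hOd, hXd, Finset.mem_filter, Finset.mem_product, Finset.mem_Icc,
      Finset.mem_singleton] at hv ⊢
    obtain ⟨⟨h1, h2⟩, h3⟩ := hv
    exact ⟨⟨⟨by omega, by omega⟩, by omega⟩, h3⟩
  have hsub : Y ⊆ ((X \ O) ∪ In).image f := by
    intro y hy
    simp only [hYd, Finset.mem_filter, Finset.mem_product, Finset.mem_Icc] at hy
    obtain ⟨⟨⟨w1, w2⟩, w3, w4⟩, hw'⟩ := hy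
    obtain ⟨v, hv, rfl⟩ := hf.surj y hw'
    refine Finset.mem_image.2 ⟨v, ?_, rfl⟩
    have hnb := hf.nb v hv
    have hg : 1 ≤ v.1 ∧ v.1 ≤ m ∧ 1 ≤ v.2 ∧ v.2 ≤ n := by
      by_contra h
      rw [hz v.1 v.2 h] at hv
      exact absurd hv (by norm_num)
    by_cases hR : v.2 ≤ w
    · refine Finset.mem_union_left _ (Finset.mem_sdiff.2 ⟨?_, ?_⟩)
      · simp only [hXd, Finset.mem_filter, Finset.mem_product, Finset.mem_Icc]
        exact ⟨⟨⟨hg.1, hg.2.1⟩, hg.2.2.1, hR⟩, hv⟩
      · intro hvO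
        simp only [hOd, Finset.mem_filter, Finset.mem_product, Finset.mem_Icc,
          Finset.mem_singleton] at hvO
        obtain ⟨⟨h1, h2⟩, h3⟩ := hvO
        have h4 : f (v.1, w) = (v.1, w + 1) := hr1 v.1 h1.1 h1.2 (by rw [← h2]; exact hv)
        have h5 : f v = (v.1, w + 1) := by
          rw [← h4, ← h2]
        rw [h5] at w4
        have h6 : w + 1 ≤ w := w4
        omega
    · have h1 : v.2 = w + 1 := by
        rcases hnb with ⟨-, h2 | h2⟩ | ⟨h2, -⟩ <;> omega
      refine Finset.mem_union_right _ ?_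
      simp only [hIn, Finset.mem_product, Finset.mem_union, Finset.mem_singleton,
        Finset.mem_Icc]
      refine ⟨?_, h1⟩
      by_contra h2
      have h4 : f (v.1, w + 1) = (v.1, w + 2) :=
        hr2 v.1 (by omega) (by omega) (by rw [← h1]; exact hv)
      have h5 : f v = (v.1, w + 2) := by
        rw [← h4, ← h1]
      rw [h5] at w4
      have h6 : w + 2 ≤ w := w4
      omega
  have hcard : Y.card + O.card ≤ X.card + 22 := by
    have h1 := (Finset.card_le_card hsub).trans Finset.card_image_le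
    have h2 := Finset.card_union_le (X \ O) In
    have h3 := Finset.card_sdiff_add_card_eq_card hOX
    omega
  unfold tot
  rw [hX, hY, hO']
  have : (Y.card : ℤ) + O.card ≤ X.card + 22 := by exact_mod_cast hcard
  linarith

end PatGap
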