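import Pool.Agent.H.MP_b28609_co.Gap.Stmt2

/-!
# MP_b28609_co, gap theorem, second part, module HBand: in clean columns the motion is horizontal
-/

set_option autoImplicit false

noncomputable section

namespace PatGap

private theorem HBand_hit {d : ℤ → ℤ → ℤ} (hb : Bin d) {x y : ℤ} (h : a d x y = 1) :
    ∃ i j : ℤ, x - 1 ≤ i ∧ i ≤ x + 1 ∧ y - 1 ≤ j ∧ j ≤ y + 1 ∧ d i j = 1 := by
  by_contra hne
  push Not at hne
  have h0 : ∀ i j : ℤ, x - 1 ≤ i → i ≤ x + 1 → y - 1 ≤ j → j ≤ y + 1 → d i j = 0 := by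
    intro i j h1 h2 h3 h4
    rcases hb i j with h5 | h5
    · exact h5
    · exact absurd h5 (hne i j h1 h2 h3 h4)
  unfold a at h
  rw [h0 x y (by omega) (by omega) (by omega) (by omega),
    h0 (x - 1) y (by omega) (by omega) (by omega) (by omega),
    h0 (x + 1) y (by omega) (by omega) (by omega) (by omega),
    h0 x (y - 1) (by omega) (by omega) (by omega) (by omega),
    h0 x (y + 1) (by omega) (by omega) (by omega) (by omega)] at h
  omega

/-- the transposed motion -/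
private theorem HBand_tr {d d' : ℤ → ℤ → ℤ} {f : ℤ × ℤ → ℤ × ℤ} (h : Mv d d' f) :
    Mv (tr d) (tr d') (fun v => ((f (v.2, v.1)).2, (f (v.2, v.1)).1)) := by
  refine ⟨fun v hv => h.mem (v.2, v.1) hv, fun v hv => ?_, fun v w hv hw hvw => ?_,
    fun w hw => ?_⟩
  · have h1 := h.nb (v.2, v.1) hv
    unfold Nb at h1 ⊢
    dsimp only at h1 ⊢
    omega
  · have h1 : (f (v.2, v.1)).2 = (f (w.2, w.1)).2 := congrArg Prod.fst hvw
    have h2 : (f (v.2, v.1)).1 = (f (w.2, w.1)).1 := congrArg Prod.snd hvw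
    have h3 := h.inj (v.2, v.1) (w.2, w.1) hv hw (Prod.ext h2 h1)
    exact Prod.ext (congrArg Prod.snd h3) (congrArg Prod.fst h3)
  · obtain ⟨v, hv, hfv⟩ := h.surj (w.2, w.1) hw
    refine ⟨(v.2, v.1), hv, ?_⟩
    show ((f (v.1, v.2)).2, (f (v.1, v.2)).1) = w
    have h1 : f (v.1, v.2) = (w.2, w.1) := hfv
    rw [h1]

/-- one guard moves to the right -/
private theorem HBand_step {e e' : ℤ → ℤ → ℤ} {f : ℤ × ℤ → ℤ × ℤ} (hb : Bin e') (hf : Mv e e' f)
    {i j : ℤ} (hcl : a (tr e') j i = 1) (h1 : e' i (j + 1) = 1) (h2 : e i j = 1) :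
    f (i, j) = (i, j + 1) := by
  have hm := hf.mem (i, j) h2
  have hn := hf.nb (i, j) h2
  unfold Nb at hn
  dsimp only at hm hn
  unfold a tr at hcl
  have b1 := hb i j
  have b2 := hb i (j - 1)
  have b3 := hb (i - 1) j
  have b4 := hb (i + 1) j
  rcases hn with ⟨g1, g2 | g2⟩ | ⟨g1, g2 | g2⟩
  · exact Prod.ext g1 g2
  · rw [g1, g2] at hm
    omega
  · rw [g1, g2] at hm
    omega
  · rw [g1, g2] at hm
    omega

theorem hband (hB : BandStmt) : HBandStmt := by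
  intro G m n d d' f q hG hd hd' hf hm k1 k2
  have z2 : ∀ e : ℤ → ℤ → ℤ, DomG m n e → ∀ i j, j ≤ 0 → tr e i j = 0 := by
    intro e he i j hj
    exact he.2.1 j i (by omega)
  have b2 : ∀ e : ℤ → ℤ → ℤ, DomG m n e → Bin (tr e) := fun e he i j => he.1 j i
  obtain ⟨s, c, c', hs, l1, l2, l3⟩ := hB G m (tr d) (tr d') _ q hG (b2 d hd) (b2 d' hd')
    (z2 d hd) (z2 d' hd') (HBand_tr hf) hm k1 k2
  have key : ∀ (e : ℤ → ℤ → ℤ) (b : ℤ), DomG m n e → Clean G m (tr e) q →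
      Lat (tr e) s b (q + 2) (q + 239) 12 (m - 11) → 0 ≤ b ∧ b ≤ 4 := by
    intro e b he hc hl
    have h1 : a (tr e) (q + 100) 30 = 1 :=
      (hc (q + 100) (by omega) (by omega)).2 30 (by omega) (by omega)
    obtain ⟨i, j, e1, e2, e3, e4, e5⟩ := HBand_hit (b2 e he) h1
    have h2 := (hl i j (by omega) (by omega) (by omega) (by omega)).1 e5
    rcases hs with rfl | rfl
    · omega
    · omega
  obtain ⟨c0, c4⟩ := key d c hd k1 l1
  obtain ⟨c0', c4'⟩ := key d' c' hd' k2 l2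
  have m1 : ∀ i j, 12 ≤ i → i ≤ m - 11 → q + 2 ≤ j → j ≤ q + 239 →
      (d i j = 1 ↔ (j + s * i) % 5 = c) := fun i j h1 h2 h3 h4 => l1 j i h3 h4 h1 h2
  have m2 : ∀ i j, 12 ≤ i → i ≤ m - 11 → q + 2 ≤ j → j ≤ q + 239 →
      (d' i j = 1 ↔ (j + s * i) % 5 = c') := fun i j h1 h2 h3 h4 => l2 j i h3 h4 h1 h2
  refine ⟨s, c, c', hs, c0, c4, c0', c4', m1, m2, ?_⟩
  rcases l3 with l3 | l3
  · left
    intro i j h1 h2 h3 h4 h5
    have h6 := (m1 i j h1 h2 (by omega) (by omega)).1 h5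
    refine HBand_step hd'.1 hf ((k2 j (by omega) (by omega)).2 i (by omega) (by omega)) ?_ h5
    refine (m2 i (j + 1) h1 h2 (by omega) (by omega)).2 ?_
    rcases hs with rfl | rfl
    · omega
    · omega
  · right
    intro g hg i j h1 h2 h3 h4 h5
    have h6 := (m2 i j h1 h2 (by omega) (by omega)).1 h5
    refine HBand_step hd.1 hg ((k1 j (by omega) (by omega)).2 i (by omega) (by omega)) ?_ h5
    refine (m1 i (j + 1) h1 h2 (by omega) (by omega)).2 ?_
    rcases hs with rfl | rfl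
    · omega
    · omega

end PatGap
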