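import Pool.Agent.H.MP_b28609_co.Gap.Stmt2

/-!
# MP_b28609_co, gap theorem: module Half

The left part of the grid, columns at most `w`: the sum of `a d i j` over the rectangle
`[0, m + 1] × [0, w]`, which is cut into two corners, three side areas and the middle.
-/

set_option autoImplicit false

noncomputable section

namespace PatGap

open Finset

private theorem half_shift (g : ℤ → ℤ) (x y s : ℤ) :
    ∑ i ∈ Icc x y, g (i + s) = ∑ i ∈ Icc (x + s) (y + s), g i := by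
  rw [← Finset.map_add_right_Icc, sum_map]
  rfl

private theorem half_one (g : ℤ → ℤ) (m s : ℤ) (h1 : -1 ≤ s) (h2 : s ≤ 1)
    (hg : ∀ i, ¬ (1 ≤ i ∧ i ≤ m) → g i = 0) :
    ∑ i ∈ Icc 0 (m + 1), g (i + s) = ∑ i ∈ Icc 1 m, g i := by
  rw [half_shift]
  symm
  refine sum_subset (Icc_subset_Icc (by omega) (by omega)) fun i _ hi => hg i ?_
  rw [mem_Icc] at hi
  exact hi

private theorem half_cols (m w : ℤ) (d : ℤ → ℤ → ℤ) (hw : 1 ≤ w)
    (hd : ∀ i j, ¬ (1 ≤ i ∧ i ≤ m ∧ 1 ≤ j) → d i j = 0) (i : ℤ) :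
    ∑ j ∈ Icc 0 w, a d i j = ∑ j ∈ Icc 1 w, d i j + ∑ j ∈ Icc 1 w, d (i - 1) j +
      ∑ j ∈ Icc 1 w, d (i + 1) j + (∑ j ∈ Icc 1 w, d i j - d i w) +
      (∑ j ∈ Icc 1 w, d i j + d i (w + 1)) := by
  have h0 : ∀ i, ∑ j ∈ Icc 0 w, d i j = ∑ j ∈ Icc 1 w, d i j := by
    intro i
    symm
    refine sum_subset (Icc_subset_Icc (by omega) (by omega)) fun j hj1 hj2 => hd i j ?_
    rw [mem_Icc] at hj1 hj2
    omega
  have h1 : ∑ j ∈ Icc 0 w, d i (j - 1) = ∑ j ∈ Icc 1 w, d i j - d i w := by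
    have e := half_shift (fun j => d i j) 0 w (-1)
    simp only [← sub_eq_add_neg] at e
    rw [e]
    have e2 : Icc (1 : ℤ) w = insert w (Icc 1 (w - 1)) := by
      ext j
      rw [mem_insert, mem_Icc, mem_Icc]
      omega
    rw [e2, sum_insert (by rw [mem_Icc]; omega), add_sub_cancel_left]
    symm
    refine sum_subset (Icc_subset_Icc (by omega) (by omega)) fun j hj1 hj2 => hd i j ?_
    rw [mem_Icc] at hj1 hj2
    omega
  have h2 : ∑ j ∈ Icc 0 w, d i (j + 1) = ∑ j ∈ Icc 1 w, d i j + d i (w + 1) := by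
    rw [half_shift (fun j => d i j) 0 w 1]
    have e2 : Icc (0 + 1 : ℤ) (w + 1) = insert (w + 1) (Icc 1 w) := by
      ext j
      rw [mem_insert, mem_Icc, mem_Icc]
      omega
    rw [e2, sum_insert (by rw [mem_Icc]; omega), add_comm]
  rw [← h0 i, ← h0 (i - 1), ← h0 (i + 1)]
  rw [← h0 i] at h1 h2
  rw [← h1, ← h2]
  simp only [a, sum_add_distrib]

private theorem half_tot (m n w : ℤ) (d : ℤ → ℤ → ℤ) (hw : 1 ≤ w)
    (hd : ∀ i j, ¬ (1 ≤ i ∧ i ≤ m ∧ 1 ≤ j ∧ j ≤ n) → d i j = 0) :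
    ∑ i ∈ Icc 0 (m + 1), ∑ j ∈ Icc 0 w, a d i j =
      5 * tot m w d - col m d w + col m d (w + 1) := by
  have hd1 : ∀ i j, ¬ (1 ≤ i ∧ i ≤ m ∧ 1 ≤ j) → d i j = 0 := fun i j h => hd i j (by tauto)
  have hz : ∀ i, ¬ (1 ≤ i ∧ i ≤ m) → ∑ j ∈ Icc 1 w, d i j = 0 := fun i hi =>
    sum_eq_zero fun j _ => hd i j (by tauto)
  have h0 := half_one (fun i => ∑ j ∈ Icc 1 w, d i j) m 0 (by omega) (by omega) hz
  have h1 := half_one (fun i => ∑ j ∈ Icc 1 w, d i j) m (-1) (by omega) (by omega) hz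
  have h2 := half_one (fun i => ∑ j ∈ Icc 1 w, d i j) m 1 (by omega) (by omega) hz
  have h3 := half_one (fun i => d i w) m 0 (by omega) (by omega) fun i hi => hd i w (by tauto)
  have h4 := half_one (fun i => d i (w + 1)) m 0 (by omega) (by omega) fun i hi =>
    hd i (w + 1) (by tauto)
  simp only [add_zero, ← sub_eq_add_neg] at h0 h1 h2 h3 h4
  simp only [half_cols m w d hw hd1, sum_add_distrib, sum_sub_distrib]
  rw [h0, h1, h2, h3, h4, tot, col, col]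
  ring

private theorem half_succ (f : ℤ → ℤ) (x y : ℤ) (h : x - 1 ≤ y) :
    ∑ i ∈ Icc x (y + 1), f i = f (y + 1) + ∑ i ∈ Icc x y, f i := by
  have h1 : Icc x (y + 1) = insert (y + 1) (Icc x y) := by
    ext i
    rw [mem_insert, mem_Icc, mem_Icc]
    omega
  rw [h1, sum_insert]
  rw [mem_Icc]
  omega

private theorem half_tel (f : ℤ → ℤ) (x y : ℤ) (h : x - 1 ≤ y) :
    ∑ i ∈ Icc x y, (f i - f (i - 1)) = f y - f (x - 1) := by
  induction y, h using Int.leInduction with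
  | base => rw [Icc_eq_empty (by omega), sum_empty, sub_self]
  | succ y hy ih =>
    rw [half_succ _ _ _ hy, ih, add_sub_cancel_right]
    ring

private theorem half_tel' (f : ℤ → ℤ) (x y : ℤ) (h : x - 1 ≤ y) :
    ∑ i ∈ Icc x y, (f (i + 1) - f i) = f (y + 1) - f x := by
  have h1 := half_tel (fun i => f (i + 1)) x y h
  simp only [sub_add_cancel] at h1
  exact h1

private theorem half_const (x y c : ℤ) (h : x - 1 ≤ y) : ∑ _i ∈ Icc x y, c = (y + 1 - x) * c := by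
  rw [sum_const, Int.card_Icc, nsmul_eq_mul, Int.toNat_of_nonneg (by omega)]

/-- Number of guards in the columns `1, ..., 10` of the row `i`. -/
private def halfV (d : ℤ → ℤ → ℤ) (i : ℤ) : ℤ := ∑ j ∈ Icc (1 : ℤ) 10, d i j

private theorem half_V (d : ℤ → ℤ → ℤ) (hb : Bin d) (i : ℤ) : 0 ≤ halfV d i ∧ halfV d i ≤ 10 := by
  constructor
  · refine sum_nonneg fun j _ => ?_
    rcases hb i j with h | h <;> omega
  · have h1 : halfV d i ≤ ∑ _j ∈ Icc (1 : ℤ) 10, 1 := sum_le_sum fun j _ => by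
      rcases hb i j with h | h <;> omega
    rw [half_const _ _ _ (by omega)] at h1
    omega

private theorem half_row (d : ℤ → ℤ → ℤ) (h0 : ∀ i j, j ≤ 0 → d i j = 0) (i : ℤ) :
    ∑ j ∈ Icc (0 : ℤ) 10, a d i j =
      cwid d 10 i + (halfV d (i + 1) - halfV d i) - (halfV d i - halfV d (i - 1)) := by
  have e1 : Icc (0 : ℤ) 10 = {0, 1, 2, 3, 4, 5, 6, 7, 8, 9, 10} := rfl
  have e2 : Icc (1 : ℤ) 10 = {1, 2, 3, 4, 5, 6, 7, 8, 9, 10} := rfl
  have e3 : Icc (1 : ℤ) (10 - 1) = {1, 2, 3, 4, 5, 6, 7, 8, 9} := rfl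
  have z0 := h0 i 0 (by omega)
  have z1 := h0 (i - 1) 0 (by omega)
  have z2 := h0 (i + 1) 0 (by omega)
  have z3 := h0 i (-1) (by omega)
  rw [cwid, halfV, halfV, halfV, e1, e2, e3]
  simp only [a]
  simp [z0, z1, z2, z3]
  ring

private theorem half_left (G : (ℤ → ℤ → ℤ) → ℤ → ℤ) (hG : SideProp G) (h : ℤ) (d : ℤ → ℤ → ℤ)
    (hm : 11 ≤ h) (hb : Bin d) (h0 : ∀ i j, j ≤ 0 → d i j = 0)
    (hs : ∀ i, 11 ≤ i → i ≤ h → 0 ≤ sg G d i) :
    11 * (h - 10) - 42 ≤ ∑ i ∈ Icc (11 : ℤ) h, ∑ j ∈ Icc (0 : ℤ) 10, a d i j := by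
  have h1 : ∑ i ∈ Icc (11 : ℤ) h, ∑ j ∈ Icc (0 : ℤ) 10, a d i j =
      ∑ i ∈ Icc (11 : ℤ) h, sg G d i + ∑ _i ∈ Icc (11 : ℤ) h, (11 : ℤ) +
        ∑ i ∈ Icc (11 : ℤ) h, (G d i - G d (i - 1)) +
        ∑ i ∈ Icc (11 : ℤ) h, (halfV d (i + 1) - halfV d i) -
        ∑ i ∈ Icc (11 : ℤ) h, (halfV d i - halfV d (i - 1)) := by
    rw [← sum_add_distrib, ← sum_add_distrib, ← sum_add_distrib, ← sum_sub_distrib]
    refine sum_congr rfl fun i _ => ?_
    rw [half_row d h0 i, sg]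
    ring
  have h2 : 0 ≤ ∑ i ∈ Icc (11 : ℤ) h, sg G d i := by
    refine sum_nonneg fun i hi => ?_
    rw [mem_Icc] at hi
    exact hs i hi.1 hi.2
  rw [h1, half_const _ _ _ (by omega), half_tel _ _ _ (by omega), half_tel' _ _ _ (by omega),
    half_tel _ _ _ (by omega)]
  have g1 := (hG d hb h0).1 h
  have g2 := (hG d hb h0).1 (11 - 1)
  have v1 := half_V d hb (h + 1)
  have v2 := half_V d hb 11
  have v3 := half_V d hb h
  have v4 := half_V d hb (11 - 1)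
  have e : (h + 1 - 11) * 11 = 11 * (h - 10) := by ring
  rw [e]
  omega

private theorem half_nonneg (d : ℤ → ℤ → ℤ) (hb : Bin d) (i j : ℤ) : 0 ≤ a d i j := by
  rw [a]
  rcases hb i j with h1 | h1 <;> rcases hb (i - 1) j with h2 | h2 <;>
    rcases hb (i + 1) j with h3 | h3 <;> rcases hb i (j - 1) with h4 | h4 <;>
    rcases hb i (j + 1) with h5 | h5 <;> omega

/-- Reflection. -/
private def halfR (n : ℤ) (d : ℤ → ℤ → ℤ) : ℤ → ℤ → ℤ := fun i j => d i (n + 1 - j)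

private theorem half_aR (n : ℤ) (d : ℤ → ℤ → ℤ) (i j : ℤ) : a (halfR n d) i j = a d i (n + 1 - j) := by
  simp only [a, halfR]
  rw [show n + 1 - (j - 1) = n + 1 - j + 1 by ring, show n + 1 - (j + 1) = n + 1 - j - 1 by ring]
  ring

private theorem half_refl (g : ℤ → ℤ) (n : ℤ) :
    ∑ j ∈ Icc (n - 9) (n + 1), g j = ∑ j ∈ Icc (0 : ℤ) 10, g (n + 1 - j) := by
  refine sum_nbij' (fun j => n + 1 - j) (fun j => n + 1 - j) ?_ ?_ ?_ ?_ ?_
  · intro j hj
    rw [mem_Icc] at hj ⊢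
    omega
  · intro j hj
    rw [mem_Icc] at hj ⊢
    omega
  · intro j _
    ring
  · intro j _
    ring
  · intro j _
    congr 1
    ring

private theorem half_tra (d : ℤ → ℤ → ℤ) (i j : ℤ) : a (tr d) i j = a d j i := by
  simp only [a, tr]
  ring

private theorem half_trd (m n : ℤ) (d : ℤ → ℤ → ℤ) (hd : DomG m n d) : DomG n m (tr d) := by
  refine ⟨fun i j => hd.1 j i, fun i j h => hd.2.1 j i ?_, fun i j h1 h2 h3 h4 => ?_⟩
  · tauto
  · rw [half_tra]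
    exact hd.2.2 j i h3 h4 h1 h2

private theorem half_split (f : ℤ → ℤ) (m : ℤ) (hm : 30 ≤ m) :
    ∑ i ∈ Icc 0 (m + 1), f i = ∑ i ∈ Icc (0 : ℤ) 10, f i + ∑ i ∈ Icc (11 : ℤ) (m - 10), f i +
      ∑ i ∈ Icc (m - 9) (m + 1), f i := by
  have h1 : Icc 0 (m + 1) = (Icc (0 : ℤ) 10 ∪ Icc (11 : ℤ) (m - 10)) ∪ Icc (m - 9) (m + 1) := by
    ext i
    rw [mem_union, mem_union, mem_Icc, mem_Icc, mem_Icc, mem_Icc]
    omega
  rw [h1, sum_union, sum_union]
  · rw [disjoint_left]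
    intro i h2 h3
    rw [mem_Icc] at h2 h3
    omega
  · rw [disjoint_left]
    intro i h2 h3
    rw [mem_union, mem_Icc, mem_Icc] at h2
    rw [mem_Icc] at h3
    omega

private theorem half_corner (F : ℤ → ℤ → ℤ) (x y z w : ℤ) (x' y' z' w' : ℤ) (hx : x ≤ x')
    (hy : y' ≤ y) (hz : z ≤ z') (hw : w' ≤ w) (hF : ∀ i j, 0 ≤ F i j) (hxy : y' = x' + 9)
    (hzw : w' = z' + 9)
    (h1 : ∀ i j, x' ≤ i → i ≤ y' → z' ≤ j → j ≤ w' → 1 ≤ F i j) :
    100 ≤ ∑ i ∈ Icc x y, ∑ j ∈ Icc z w, F i j := by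
  have h2 : ∑ i ∈ Icc x' y', ∑ j ∈ Icc z' w', F i j ≤ ∑ i ∈ Icc x y, ∑ j ∈ Icc z w, F i j := by
    refine (sum_le_sum fun i _ => ?_).trans
      (sum_le_sum_of_subset_of_nonneg (Icc_subset_Icc hx hy) fun i _ _ =>
        sum_nonneg fun j _ => hF i j)
    exact sum_le_sum_of_subset_of_nonneg (Icc_subset_Icc hz hw) fun j _ _ => hF i j
  have h3 : ∑ _i ∈ Icc x' y', ∑ _j ∈ Icc z' w', (1 : ℤ) ≤ ∑ i ∈ Icc x' y', ∑ j ∈ Icc z' w', F i j := by
    refine sum_le_sum fun i hi => sum_le_sum fun j hj => ?_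
    rw [mem_Icc] at hi hj
    exact h1 i j hi.1 hi.2 hj.1 hj.2
  rw [half_const _ _ _ (by omega), half_const _ _ _ (by omega)] at h3
  rw [show y' + 1 - x' = 10 by omega, show w' + 1 - z' = 10 by omega] at h3
  omega

private theorem half_splitw (f : ℤ → ℤ) (w : ℤ) (hw : 11 ≤ w) :
    ∑ j ∈ Icc 0 w, f j = ∑ j ∈ Icc (0 : ℤ) 10, f j + ∑ j ∈ Icc (11 : ℤ) w, f j := by
  have h1 : Icc 0 w = Icc (0 : ℤ) 10 ∪ Icc (11 : ℤ) w := by
    ext i
    rw [mem_union, mem_Icc, mem_Icc, mem_Icc]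
    omega
  rw [h1, sum_union]
  rw [disjoint_left]
  intro i h2 h3
  rw [mem_Icc] at h2 h3
  omega

theorem half : HalfStmt := by
  intro G hG m n w d hm hw hwn hd
  have ht := half_tot m n w d (by omega) hd.2.1
  have hn0 := half_nonneg d hd.1
  have hT0 := half_trd m n d hd
  rw [half_split _ m hm] at ht
  have hs : ∀ i, ∑ j ∈ Icc 0 w, a d i j = ∑ j ∈ Icc (0 : ℤ) 10, a d i j +
      ∑ j ∈ Icc (11 : ℤ) w, a d i j := fun i => half_splitw _ w hw
  simp only [hs, sum_add_distrib] at ht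
  -- left area
  have hL := half_left G hG (m - 10) d (by omega) hd.1 (fun i j hj => hd.2.1 i j (by omega))
    (fun i h1 h2 => (hG d hd.1 (fun i j hj => hd.2.1 i j (by omega))).2 i fun j h3 h4 =>
      hd.2.2 _ _ (by omega) (by omega) (by omega) (by omega))
  -- top area
  have hz1 : ∀ i j, j ≤ 0 → tr d i j = 0 := fun i j hj => hT0.2.1 i j (by omega)
  have hT := half_left G hG w (tr d) hw hT0.1 hz1
    (fun i h1 h2 => (hG (tr d) hT0.1 hz1).2 i fun j h3 h4 =>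
      hT0.2.2 _ _ (by omega) (by omega) (by omega) (by omega))
  -- bottom area
  have hb2 : Bin (halfR m (tr d)) := fun i j => hT0.1 i (m + 1 - j)
  have hz2 : ∀ i j, j ≤ 0 → halfR m (tr d) i j = 0 := fun i j hj =>
    hT0.2.1 i (m + 1 - j) (by omega)
  have hB := half_left G hG w (halfR m (tr d)) hw hb2 hz2
    (fun i h1 h2 => (hG _ hb2 hz2).2 i fun j h3 h4 => by
      rw [half_aR]
      exact hT0.2.2 _ _ (by omega) (by omega) (by omega) (by omega))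
  have hB' : ∑ i ∈ Icc (11 : ℤ) w, ∑ j ∈ Icc (0 : ℤ) 10, a (halfR m (tr d)) i j =
      ∑ i ∈ Icc (11 : ℤ) w, ∑ j ∈ Icc (m - 9) (m + 1), a (tr d) i j := by
    refine sum_congr rfl fun i _ => ?_
    rw [half_refl]
    exact sum_congr rfl fun j _ => half_aR m (tr d) i j
  rw [hB'] at hB
  simp only [half_tra] at hT hB
  rw [sum_comm] at hT hB
  have c1 := half_corner (fun i j => a d i j) 0 10 0 10 1 10 1 10 (by omega) (by omega) (by omega)
    (by omega) hn0 (by omega) (by omega)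
    (fun i j h1 h2 h3 h4 => hd.2.2 i j (by omega) (by omega) (by omega) (by omega))
  have c3 := half_corner (fun i j => a d i j) (m - 9) (m + 1) 0 10 (m - 9) m 1 10 (by omega)
    (by omega) (by omega) (by omega) hn0 (by omega) (by omega)
    (fun i j h1 h2 h3 h4 => hd.2.2 i j (by omega) (by omega) (by omega) (by omega))
  have hM : (m - 20) * (w - 10) ≤
      ∑ i ∈ Icc (11 : ℤ) (m - 10), ∑ j ∈ Icc (11 : ℤ) w, a d i j := by
    have h3 : ∑ _i ∈ Icc (11 : ℤ) (m - 10), ∑ _j ∈ Icc (11 : ℤ) w, (1 : ℤ) ≤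
        ∑ i ∈ Icc (11 : ℤ) (m - 10), ∑ j ∈ Icc (11 : ℤ) w, a d i j := by
      refine sum_le_sum fun i hi => sum_le_sum fun j hj => ?_
      rw [mem_Icc] at hi hj
      exact hd.2.2 i j (by omega) (by omega) (by omega) (by omega)
    rw [half_const _ _ _ (by omega), half_const _ _ _ (by omega)] at h3
    refine le_trans (le_of_eq ?_) h3
    ring
  nlinarith [hL, hT, hB, c1, c3, hM, ht]

end PatGap
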