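import Mathlib

/-!
# MP_b28609_co, gap theorem: definitions and statements of the modules

A set of guards in the grid is a function `d : ℤ → ℤ → ℤ` with values `0` and `1` (row, column), zero
outside `[1, m] × [1, n]`.
-/

set_option autoImplicit false

noncomputable section

namespace PatGap

/-- Number of guards in the closed neighbourhood of `(i, j)`. -/
def a (d : ℤ → ℤ → ℤ) (i j : ℤ) : ℤ :=
  d i j + d (i - 1) j + d (i + 1) j + d i (j - 1) + d i (j + 1)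

/-- Values `0` and `1`. -/
def Bin (d : ℤ → ℤ → ℤ) : Prop := ∀ i j, d i j = 0 ∨ d i j = 1

/-- Transposition. -/
def tr (d : ℤ → ℤ → ℤ) : ℤ → ℤ → ℤ := fun i j => d j i

/-- Row `i`, guards weighted by the number of cells with column at most `w` in their closed
neighbourhood. -/
def cwid (d : ℤ → ℤ → ℤ) (w i : ℤ) : ℤ :=
  5 * (∑ j ∈ Finset.Icc (1 : ℤ) (w - 1), d i j) + 4 * d i w + d i (w + 1)

/-- Slack of row `i` for the strip of width 11 along the line `j = 0`. -/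
def sg (G : (ℤ → ℤ → ℤ) → ℤ → ℤ) (d : ℤ → ℤ → ℤ) (i : ℤ) : ℤ :=
  cwid d 10 i - 11 + G d (i - 1) - G d i

/-- `G` is a potential for the side strip. -/
def SideProp (G : (ℤ → ℤ → ℤ) → ℤ → ℤ) : Prop :=
  ∀ d : ℤ → ℤ → ℤ, Bin d → (∀ i j, j ≤ 0 → d i j = 0) →
    (∀ i, 0 ≤ G d i ∧ G d i ≤ 22) ∧
    ∀ i, (∀ j, 1 ≤ j → j ≤ 10 → 1 ≤ a d (i - 1) j) → 0 ≤ sg G d i

/-- Module Side. -/
def SideStmt : Prop := ∃ G, SideProp G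

/-- `d` is supported in the grid and dominating. -/
def DomG (m n : ℤ) (d : ℤ → ℤ → ℤ) : Prop :=
  Bin d ∧ (∀ i j, ¬ (1 ≤ i ∧ i ≤ m ∧ 1 ≤ j ∧ j ≤ n) → d i j = 0) ∧
    ∀ i j, 1 ≤ i → i ≤ m → 1 ≤ j → j ≤ n → 1 ≤ a d i j

/-- Number of guards. -/
def tot (m n : ℤ) (d : ℤ → ℤ → ℤ) : ℤ :=
  ∑ i ∈ Finset.Icc (1 : ℤ) m, ∑ j ∈ Finset.Icc (1 : ℤ) n, d i j

/-- Excess of `d` in the row `i`. -/
def exr (G : (ℤ → ℤ → ℤ) → ℤ → ℤ) (n : ℤ) (d : ℤ → ℤ → ℤ) (i : ℤ) : ℤ :=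
  sg G d i + ∑ j ∈ Finset.Icc (11 : ℤ) (n - 10), (a d i j - 1)

/-- Module Asm: first form, all slacks and the losses in the middle. -/
def AsmStmt : Prop :=
  ∀ G, SideProp G → ∀ (m n : ℤ) (d : ℤ → ℤ → ℤ), 30 ≤ m → 30 ≤ n → DomG m n d →
    m * n + 2 * (m + n) - 248 + ∑ i ∈ Finset.Icc (11 : ℤ) (m - 10), sg G d i
      + ∑ j ∈ Finset.Icc (11 : ℤ) (n - 10), sg G (tr d) j
      + ∑ i ∈ Finset.Icc (11 : ℤ) (m - 10), ∑ j ∈ Finset.Icc (11 : ℤ) (n - 10), (a d i j - 1)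
      ≤ 5 * tot m n d

/-- `d` is the perfect code `i + s j ≡ c (mod 5)` on a rectangle. -/
def Lat (d : ℤ → ℤ → ℤ) (s c r1 r2 c1 c2 : ℤ) : Prop :=
  ∀ i j, r1 ≤ i → i ≤ r2 → c1 ≤ j → j ≤ c2 → (d i j = 1 ↔ (i + s * j) % 5 = c)

/-- Module RigL: exact domination of a `7 × 7` window. -/
def RigLStmt : Prop :=
  ∀ (d : ℤ → ℤ → ℤ) (x y : ℤ), Bin d →
    (∀ i j, x - 3 ≤ i → i ≤ x + 3 → y - 3 ≤ j → j ≤ y + 3 → a d i j = 1) →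
    ∃ s c : ℤ, (s = 2 ∨ s = 3) ∧ 0 ≤ c ∧ c ≤ 4 ∧ Lat d s c (x - 2) (x + 2) (y - 2) (y + 2)

/-- Module RigG: exact domination of a rectangle. -/
def RigGStmt : Prop :=
  ∀ (d : ℤ → ℤ → ℤ) (r1 r2 c1 c2 : ℤ), Bin d → r1 + 6 ≤ r2 → c1 + 6 ≤ c2 →
    (∀ i j, r1 ≤ i → i ≤ r2 → c1 ≤ j → j ≤ c2 → a d i j = 1) →
    ∃ s c : ℤ, (s = 2 ∨ s = 3) ∧ 0 ≤ c ∧ c ≤ 4 ∧ Lat d s c (r1 + 1) (r2 - 1) (c1 + 1) (c2 - 1)

/-- The cells `v`, `w` are adjacent. -/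
def Nb (v w : ℤ × ℤ) : Prop :=
  (w.1 = v.1 ∧ (w.2 = v.2 + 1 ∨ w.2 = v.2 - 1)) ∨ (w.2 = v.2 ∧ (w.1 = v.1 + 1 ∨ w.1 = v.1 - 1))

/-- `f` moves the guards `d` along edges to the guards `d'`, bijectively. -/
structure Mv (d d' : ℤ → ℤ → ℤ) (f : ℤ × ℤ → ℤ × ℤ) : Prop where
  mem : ∀ v : ℤ × ℤ, d v.1 v.2 = 1 → d' (f v).1 (f v).2 = 1
  nb : ∀ v : ℤ × ℤ, d v.1 v.2 = 1 → Nb v (f v)
  inj : ∀ v w : ℤ × ℤ, d v.1 v.2 = 1 → d w.1 w.2 = 1 → f v = f w → v = w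
  surj : ∀ w : ℤ × ℤ, d' w.1 w.2 = 1 → ∃ v : ℤ × ℤ, d v.1 v.2 = 1 ∧ f v = w

/-- Module Disp: two perfect codes on a rectangle, moved onto each other. -/
def DispStmt : Prop :=
  ∀ (d d' : ℤ → ℤ → ℤ) (f : ℤ × ℤ → ℤ × ℤ) (s s' c c' r1 r2 c1 c2 : ℤ), Mv d d' f →
    (s = 2 ∨ s = 3) → (s' = 2 ∨ s' = 3) → r1 + 8 ≤ r2 → c1 + 8 ≤ c2 →
    0 ≤ c → c ≤ 4 → 0 ≤ c' → c' ≤ 4 →
    Lat d s c r1 r2 c1 c2 → Lat d' s' c' r1 r2 c1 c2 → s = s' ∧ (c' - c) % 5 ≠ 0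

/-- Module MvInv: the inverse motion. -/
def MvInvStmt : Prop :=
  ∀ (d d' : ℤ → ℤ → ℤ) (f : ℤ × ℤ → ℤ × ℤ), Mv d d' f → ∃ g : ℤ × ℤ → ℤ × ℤ, Mv d' d g ∧
    (∀ v : ℤ × ℤ, d v.1 v.2 = 1 → g (f v) = v) ∧ ∀ w : ℤ × ℤ, d' w.1 w.2 = 1 → f (g w) = w

/-- Module FluxA: the weighted number of guards in the columns `1, ..., 16`. -/
def FluxAStmt : Prop :=
  ∀ (G : (ℤ → ℤ → ℤ) → ℤ → ℤ) (d : ℤ → ℤ → ℤ) (r t : ℤ), SideProp G → Bin d →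
    (∀ i j, j ≤ 0 → d i j = 0) → 0 ≤ t →
    (∀ i, r + 1 ≤ i → i ≤ r + 5 * t → sg G d i = 0) →
    (∀ i j, r + 1 ≤ i → i ≤ r + 5 * t → 11 ≤ j → j ≤ 16 → a d i j = 1) →
    |∑ i ∈ Finset.Icc (r + 1) (r + 5 * t), cwid d 16 i - 85 * t| ≤ 34

/-- Module FluxB: number of guards of a perfect code in a column. -/
def FluxBStmt : Prop :=
  ∀ (d : ℤ → ℤ → ℤ) (s c r t j : ℤ), Bin d → 0 ≤ t → 0 ≤ c → c ≤ 4 →
    Lat d s c (r + 1) (r + 5 * t) j j →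
    ∑ i ∈ Finset.Icc (r + 1) (r + 5 * t), d i j = t

/-- Module FluxC: the flux of guards, when all guards of the columns 16 and 17 move to the right. -/
def FluxCStmt : Prop :=
  ∀ (d d' : ℤ → ℤ → ℤ) (f : ℤ × ℤ → ℤ × ℤ) (r t : ℤ), Bin d → Bin d' →
    (∀ i j, j ≤ 0 → d i j = 0) → (∀ i j, j ≤ 0 → d' i j = 0) → Mv d d' f → 0 ≤ t →
    (∀ i j, r + 1 ≤ i → i ≤ r + 5 * t → 16 ≤ j → j ≤ 17 → d i j = 1 → f (i, j) = (i, j + 1)) →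
    ∑ i ∈ Finset.Icc (r + 1) (r + 5 * t), d i 16 - 32 ≤
      ∑ i ∈ Finset.Icc (r + 1) (r + 5 * t), ∑ j ∈ Finset.Icc (1 : ℤ) 16, d i j -
      ∑ i ∈ Finset.Icc (r + 1) (r + 5 * t), ∑ j ∈ Finset.Icc (1 : ℤ) 16, d' i j

/-- The rows `r + 1, ..., r + 240` are clean. -/
def Clean (G : (ℤ → ℤ → ℤ) → ℤ → ℤ) (n : ℤ) (d : ℤ → ℤ → ℤ) (r : ℤ) : Prop :=
  ∀ i, r + 1 ≤ i → i ≤ r + 240 → sg G d i = 0 ∧ ∀ j, 11 ≤ j → j ≤ n - 10 → a d i j = 1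

/-- Module FluxD: no clean rows with a motion to the right. -/
def FluxDStmt : Prop :=
  ∀ (G : (ℤ → ℤ → ℤ) → ℤ → ℤ) (n : ℤ) (d d' : ℤ → ℤ → ℤ) (f : ℤ × ℤ → ℤ × ℤ) (r s c c' : ℤ),
    SideProp G → Bin d → Bin d' → (∀ i j, j ≤ 0 → d i j = 0) → (∀ i j, j ≤ 0 → d' i j = 0) →
    Mv d d' f → 60 ≤ n → Clean G n d r → Clean G n d' r → (s = 2 ∨ s = 3) →
    0 ≤ c → c ≤ 4 → 0 ≤ c' → c' ≤ 4 →
    Lat d s c (r + 2) (r + 239) 12 (n - 11) → Lat d' s c' (r + 2) (r + 239) 12 (n - 11) →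
    (c' - c - s) % 5 ≠ 0

/-- Module Band: in clean rows the motion is vertical. -/
def BandStmt : Prop :=
  ∀ (G : (ℤ → ℤ → ℤ) → ℤ → ℤ) (n : ℤ) (d d' : ℤ → ℤ → ℤ) (f : ℤ × ℤ → ℤ × ℤ) (r : ℤ),
    SideProp G → Bin d → Bin d' → (∀ i j, j ≤ 0 → d i j = 0) → (∀ i j, j ≤ 0 → d' i j = 0) →
    Mv d d' f → 60 ≤ n → Clean G n d r → Clean G n d' r →
    ∃ s c c' : ℤ, (s = 2 ∨ s = 3) ∧ Lat d s c (r + 2) (r + 239) 12 (n - 11) ∧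
      Lat d' s c' (r + 2) (r + 239) 12 (n - 11) ∧ ((c' - c) % 5 = 1 ∨ (c' - c) % 5 = 4)

/-- Module Cross: clean rows and clean columns exclude each other. -/
def CrossStmt : Prop :=
  ∀ (G : (ℤ → ℤ → ℤ) → ℤ → ℤ) (m n : ℤ) (d d' : ℤ → ℤ → ℤ) (f : ℤ × ℤ → ℤ × ℤ) (r q : ℤ),
    SideProp G → DomG m n d → DomG m n d' → Mv d d' f → 300 ≤ m → 300 ≤ n →
    10 ≤ r → r + 250 ≤ m → 10 ≤ q → q + 250 ≤ n →
    ¬ (Clean G n d r ∧ Clean G n d' r ∧ Clean G m (tr d) q ∧ Clean G m (tr d') q)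

/-- Module Fin: the lower bound. -/
def FinStmt : Prop :=
  ∀ (m n : ℤ) (d d' : ℤ → ℤ → ℤ) (f : ℤ × ℤ → ℤ × ℤ), 300 ≤ m → 300 ≤ n → DomG m n d →
    DomG m n d' → Mv d d' f → tot m n d = tot m n d' →
    2 * (m * n + 2 * (m + n) - 248) + (min m n - 20) / 240 ≤ 10 * tot m n d

/-- Module Base: the bound for the domination number. -/
def BaseStmt : Prop :=
  ∀ (m n : ℤ) (d : ℤ → ℤ → ℤ), 30 ≤ m → 30 ≤ n → DomG m n d →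
    m * n + 2 * (m + n) - 248 ≤ 5 * tot m n d

end PatGap
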