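import Mathlib
import Pool.Agent.H.MP_b28609_co.Gap.Stmt

/-!
# Module Gap/RigL: exact domination of a window of side 7

The cell `(x + q - 4, y + r - 4)` of the window has the number `9 q + r`, `0 ≤ q, r ≤ 8`. A search over the
cells to be dominated (centre outwards), the guards and the cells without guard are kept as bits
of two naturals.
-/

set_option autoImplicit false

namespace PatGap

/-- the cells which are dominated exactly once -/
def RigL_W : List ℕ :=
  [40, 31, 39, 41, 49, 30, 32, 48, 50, 22, 38, 42, 58, 21, 23, 29, 33, 47, 51, 57, 59, 20, 24,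
    56, 60, 13, 37, 43, 67, 12, 14, 28, 34, 46, 52, 66, 68, 11, 15, 19, 25, 55, 61, 65, 69, 10,
    16, 64, 70]

/-- the central cells -/
def RigL_C : List ℕ :=
  [40, 31, 39, 41, 49, 22, 30, 32, 38, 42, 48, 50, 58, 21, 23, 29, 33, 47, 51, 57, 59, 20, 24,
    56, 60]

/-- the closed neighbourhood -/
def RigL_N (z : ℕ) : List ℕ := [z, z - 9, z + 9, z - 1, z + 1]

/-- the cells which are no guards if `g` is a guard -/
def RigL_L (g : ℕ) : List ℕ :=
  (RigL_W.filter fun z => (RigL_N z).elem g).flatMap fun z =>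
    (RigL_N z).filter fun h => !(Nat.beq h g)

/-- a list of numbers as the bits of a number -/
def RigL_mask (l : List ℕ) : ℕ := l.foldr (fun k m => (1 <<< k) ||| m) 0

/-- the branches for the cell `z` -/
def RigL_row (z : ℕ) : List (ℕ × ℕ) := (RigL_N z).map fun g => (1 <<< g, RigL_mask (RigL_L g))

/-- the branches for the first cells of `RigL_W` -/
def RigL_dat : List (List (ℕ × ℕ)) :=
  [[(1099511627776, 290208130212560896), (2147483648, 566812754321408), (562949953421312,
      148586562668831178752), (549755813888, 145104065106280448), (2199023255552,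
      580416260425121792)],
    [(2147483648, 566812754321408), (4194304, 1107056160784), (1099511627776,
      290208130212560896), (1073741824, 283406377160704), (4294967296, 1133625508642816)],
    [(549755813888, 145104065106280448), (1073741824, 283406377160704), (281474976710656,
      74293281334415589376), (274877906944, 72552032553140224), (1099511627776,
      290208130212560896)],
    [(2199023255552, 580416260425121792), (4294967296, 1133625508642816), (1125899906842624,
      297173125337662357504), (1099511627776, 290208130212560896), (4398046511104,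
      1160832520850243584)],
    [(562949953421312, 148586562668831178752), (1099511627776, 290208130212560896),
      (288230376151711744, 76076320086441563521024), (281474976710656, 74293281334415589376),
      (1125899906842624, 297173125337662357504)],
    [(1073741824, 283406377160704), (2097152, 553528080392), (549755813888,
      145104065106280448), (536870912, 141703188580352), (2147483648, 566812754321408)],
    [(4294967296, 1133625508642816), (8388608, 2214112321568), (2199023255552,
      580416260425121792), (2147483648, 566812754321408), (8589934592, 2267251017285632)],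
    [(281474976710656, 74293281334415589376), (549755813888, 145104065106280448),
      (144115188075855872, 38038160043220781760512), (140737488355328, 37146640667207794688),
      (562949953421312, 148586562668831178752)],
    [(1125899906842624, 297173125337662357504), (2199023255552, 580416260425121792),
      (576460752303423488, 152152640172883127042048), (562949953421312,
      148586562668831178752), (2251799813685248, 594346250675324715008)],
    [(4194304, 1107056160784), (8192, 2162219064), (2147483648, 566812754321408), (2097152,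
      553528080392), (8388608, 2214112321568)],
    [(274877906944, 72552032553140224), (536870912, 141703188580352), (140737488355328,
      37146640667207794688), (137438953472, 36275981916831744), (549755813888,
      145104065106280448)],
    [(4398046511104, 1160832520850243584), (8589934592, 2267251017285632), (2251799813685248,
      594346250675324715008), (2199023255552, 580416260425121792), (8796093022208,
      2321629857328398336)],
    [(288230376151711744, 76076320086441563521024), (562949953421312, 148586562668831178752),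
      (147573952589676412928, 265449656589946932166656), (144115188075855872,
      38038160043220781760512), (576460752303423488, 152152640172883127042048)],
    [(2097152, 553528080392), (4096, 1081109532), (1073741824, 283406377160704), (1048576,
      276764040196), (4194304, 1107056160784)],
    [(8388608, 2214112321568), (16384, 4324438128), (4294967296, 1133625508642816), (4194304,
      1107056160784), (16777216, 4428224643136)],
    [(536870912, 141703188580352), (1048576, 276764040196), (274877906944, 72552032553140224),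
      (268435456, 70851527181312), (1073741824, 283406377160704)],
    [(8589934592, 2267251017285632), (16777216, 4428224643136), (4398046511104,
      1160832520850243584), (4294967296, 1133625508642816), (17179869184, 4534433315094528)],
    [(140737488355328, 37146640667207794688), (274877906944, 72552032553140224),
      (72057594037927936, 19019080021610390880256), (70368744177664, 18573302741417852928),
      (281474976710656, 74293281334415589376)],
    [(2251799813685248, 594346250675324715008), (4398046511104, 1160832520850243584),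
      (1152921504606846976, 304305280345766254084096), (1125899906842624,
      297173125337662357504), (4503599627370496, 1188674486952139948032)]]

theorem RigL_dat_eq : RigL_dat = (RigL_W.take 19).map RigL_row := by
  decide +kernel

/-- the pattern is known in the central cells -/
def RigL_leaf (T F : ℕ) : Bool :=
  [2, 3].any fun s => [0, 1, 2, 3, 4].any fun c => RigL_C.all fun k =>
    if Nat.beq ((k / 9 + s * (k % 9)) % 5) c then T.testBit k else F.testBit k

/-- the search -/
def RigL_dfs : List (List (ℕ × ℕ)) → ℕ → ℕ → Bool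
  | [], T, F => RigL_leaf T F
  | R :: rs, T, F => RigL_leaf T F || R.all fun e =>
      !(Nat.beq ((T ||| e.1) &&& (F ||| e.2)) 0) || RigL_dfs rs (T ||| e.1) (F ||| e.2)

theorem RigL_run : RigL_dfs RigL_dat 0 0 = true := by
  decide +kernel

/-- the bits of `T` are guards, those of `F` are not -/
def RigL_Ok (v : ℕ → Prop) (T F : ℕ) : Prop :=
  (∀ k, T.testBit k = true → v k) ∧ ∀ k, F.testBit k = true → ¬ v k

theorem RigL_Ok_or {v : ℕ → Prop} {T F t f : ℕ} (h1 : RigL_Ok v T F) (h2 : RigL_Ok v t f) :
    RigL_Ok v (T ||| t) (F ||| f) := by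
  refine ⟨fun k hk => ?_, fun k hk => ?_⟩
  · rw [Nat.testBit_or, Bool.or_eq_true] at hk
    rcases hk with hk | hk
    · exact h1.1 k hk
    · exact h2.1 k hk
  · rw [Nat.testBit_or, Bool.or_eq_true] at hk
    rcases hk with hk | hk
    · exact h1.2 k hk
    · exact h2.2 k hk

theorem RigL_Ok_and {v : ℕ → Prop} {T F : ℕ} (h : RigL_Ok v T F) : T &&& F = 0 := by
  refine Nat.zero_of_testBit_eq_false fun k => ?_
  by_contra hk
  rw [Bool.not_eq_false, Nat.testBit_and, Bool.and_eq_true] at hk
  exact h.2 k hk.2 (h.1 k hk.1)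

theorem RigL_sound (v : ℕ → Prop) (P : Prop)
    (hP : ∀ T F, RigL_Ok v T F → RigL_leaf T F = true → P) (rs : List (List (ℕ × ℕ)))
    (hrs : ∀ R ∈ rs, ∃ e ∈ R, RigL_Ok v e.1 e.2) :
    ∀ T F, RigL_Ok v T F → RigL_dfs rs T F = true → P := by
  induction rs with
  | nil =>
    intro T F hTF h
    exact hP T F hTF h
  | cons R rs ih =>
    intro T F hTF h
    rw [RigL_dfs, Bool.or_eq_true] at h
    rcases h with h | h
    · exact hP T F hTF h
    · obtain ⟨e, he, hok⟩ := hrs R List.mem_cons_self
      rw [List.all_eq_true] at h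
      have h1 := h e he
      have h2 := RigL_Ok_or hTF hok
      rw [RigL_Ok_and h2] at h1
      exact ih (fun R' hR' => hrs R' (List.mem_cons_of_mem _ hR')) _ _ h2 (by simpa using h1)

theorem RigL_mask_bit (l : List ℕ) (k : ℕ) (h : (RigL_mask l).testBit k = true) : k ∈ l := by
  induction l with
  | nil => simp [RigL_mask] at h
  | cons a l ih =>
    have e : RigL_mask (a :: l) = (1 <<< a) ||| RigL_mask l := rfl
    rw [e, Nat.testBit_or, Bool.or_eq_true] at h
    rcases h with h | h
    · rw [Nat.one_shiftLeft, Nat.testBit_two_pow] at h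
      have h1 : a = k := by simpa using h
      rw [h1]
      exact List.mem_cons_self
    · exact List.mem_cons_of_mem _ (ih h)

/-- each cell of the window is dominated exactly once -/
def RigL_One (v : ℕ → Prop) : Prop :=
  ∀ z ∈ RigL_W, (∃ g ∈ RigL_N z, v g) ∧ ∀ g ∈ RigL_N z, ∀ h ∈ RigL_N z, v g → v h → g = h

theorem RigL_row_ok (v : ℕ → Prop) (hv : RigL_One v) (z : ℕ) (hz : z ∈ RigL_W) :
    ∃ e ∈ RigL_row z, RigL_Ok v e.1 e.2 := by
  obtain ⟨⟨g, hg, hvg⟩, -⟩ := hv z hz
  refine ⟨(1 <<< g, RigL_mask (RigL_L g)), List.mem_map.2 ⟨g, hg, rfl⟩, ?_, ?_⟩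
  · intro k hk
    have hk' : (1 <<< g).testBit k = true := hk
    rw [Nat.one_shiftLeft, Nat.testBit_two_pow] at hk'
    have h1 : g = k := by simpa using hk'
    rw [← h1]
    exact hvg
  · intro k hk hvk
    have h1 := RigL_mask_bit _ _ hk
    rw [RigL_L, List.mem_flatMap] at h1
    obtain ⟨z', hz', hk'⟩ := h1
    rw [List.mem_filter] at hz' hk'
    have h2 : g ∈ RigL_N z' := by
      have := hz'.2
      rwa [List.elem_eq_mem, decide_eq_true_eq] at this
    have h3 := (hv z' hz'.1).2 k hk'.1 g h2 hvk hvg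
    have h4 := hk'.2
    rw [h3] at h4
    simp at h4

theorem RigL_pattern (v : ℕ → Prop) (hv : RigL_One v) :
    ∃ s c : ℕ, (s = 2 ∨ s = 3) ∧ c ≤ 4 ∧
      ∀ k ∈ RigL_C, v k ↔ (k / 9 + s * (k % 9)) % 5 = c := by
  refine RigL_sound v _ ?_ RigL_dat ?_ 0 0 ?_ RigL_run
  · intro T F hTF h
    rw [RigL_leaf, List.any_eq_true] at h
    obtain ⟨s, hs, h⟩ := h
    rw [List.any_eq_true] at h
    obtain ⟨c, hc4, h⟩ := h
    rw [List.all_eq_true] at h
    have hc4' : c ≤ 4 := by
      simp only [List.mem_cons, List.not_mem_nil, or_false] at hc4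
      omega
    refine ⟨s, c, by simpa using hs, hc4', fun k hk => ?_⟩
    have h1 := h k hk
    by_cases hc : (k / 9 + s * (k % 9)) % 5 = c
    · rw [if_pos (by rw [hc]; exact Nat.beq_refl c)] at h1
      exact ⟨fun _ => hc, fun _ => hTF.1 k h1⟩
    · rw [if_neg (by
        intro h2
        exact hc (Nat.eq_of_beq_eq_true h2))] at h1
      exact ⟨fun h2 => absurd h2 (hTF.2 k h1), fun h2 => absurd h2 hc⟩
  · intro R hR
    rw [RigL_dat_eq, List.mem_map] at hR
    obtain ⟨z, hz, rfl⟩ := hR
    exact RigL_row_ok v hv z (List.mem_of_mem_take hz)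
  · exact ⟨fun k hk => by simp at hk, fun k hk => by simp at hk⟩

theorem RigL_W_bd : ∀ z ∈ RigL_W, 1 ≤ z / 9 ∧ z / 9 ≤ 7 ∧ 1 ≤ z % 9 ∧ z % 9 ≤ 7 := by
  decide

theorem RigL_C_mem : ∀ q : Fin 5, ∀ r : Fin 5, 9 * ((q : ℕ) + 2) + ((r : ℕ) + 2) ∈ RigL_C := by
  decide

theorem RigL_one (d : ℤ → ℤ → ℤ) (x y : ℤ) (hd : Bin d)
    (h : ∀ i j, x - 3 ≤ i → i ≤ x + 3 → y - 3 ≤ j → j ≤ y + 3 → a d i j = 1) :
    RigL_One fun k => d (x + (k / 9 : ℕ) - 4) (y + (k % 9 : ℕ) - 4) = 1 := by
  intro z hz
  obtain ⟨b1, b2, b3, b4⟩ := RigL_W_bd z hz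
  have h1 := h (x + (z / 9 : ℕ) - 4) (y + (z % 9 : ℕ) - 4) (by omega) (by omega) (by omega)
    (by omega)
  rw [a] at h1
  have e1 : d (x + ((z - 9) / 9 : ℕ) - 4) (y + ((z - 9) % 9 : ℕ) - 4) =
      d (x + (z / 9 : ℕ) - 4 - 1) (y + (z % 9 : ℕ) - 4) := by
    congr 1 <;> omega
  have e2 : d (x + ((z + 9) / 9 : ℕ) - 4) (y + ((z + 9) % 9 : ℕ) - 4) =
      d (x + (z / 9 : ℕ) - 4 + 1) (y + (z % 9 : ℕ) - 4) := by
    congr 1 <;> omega
  have e3 : d (x + ((z - 1) / 9 : ℕ) - 4) (y + ((z - 1) % 9 : ℕ) - 4) =
      d (x + (z / 9 : ℕ) - 4) (y + (z % 9 : ℕ) - 4 - 1) := by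
    congr 1 <;> omega
  have e4 : d (x + ((z + 1) / 9 : ℕ) - 4) (y + ((z + 1) % 9 : ℕ) - 4) =
      d (x + (z / 9 : ℕ) - 4) (y + (z % 9 : ℕ) - 4 + 1) := by
    congr 1 <;> omega
  have c0 := hd (x + (z / 9 : ℕ) - 4) (y + (z % 9 : ℕ) - 4)
  have c1 := hd (x + (z / 9 : ℕ) - 4 - 1) (y + (z % 9 : ℕ) - 4)
  have c2 := hd (x + (z / 9 : ℕ) - 4 + 1) (y + (z % 9 : ℕ) - 4)
  have c3 := hd (x + (z / 9 : ℕ) - 4) (y + (z % 9 : ℕ) - 4 - 1)
  have c4 := hd (x + (z / 9 : ℕ) - 4) (y + (z % 9 : ℕ) - 4 + 1)
  rw [← e1] at h1 c1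
  rw [← e2] at h1 c2
  rw [← e3] at h1 c3
  rw [← e4] at h1 c4
  obtain ⟨w, hw⟩ : ∃ w : ℕ → ℤ, ∀ k, w k = d (x + (k / 9 : ℕ) - 4) (y + (k % 9 : ℕ) - 4) :=
    ⟨_, fun _ => rfl⟩
  rw [← hw z] at h1 c0
  rw [← hw (z - 9)] at h1 c1
  rw [← hw (z + 9)] at h1 c2
  rw [← hw (z - 1)] at h1 c3
  rw [← hw (z + 1)] at h1 c4
  have hmem : ∀ g, g ∈ RigL_N z ↔ g = z ∨ g = z - 9 ∨ g = z + 9 ∨ g = z - 1 ∨ g = z + 1 := by
    intro g
    simp [RigL_N]
  show (∃ g ∈ RigL_N z, d (x + (g / 9 : ℕ) - 4) (y + (g % 9 : ℕ) - 4) = 1) ∧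
    ∀ g ∈ RigL_N z, ∀ h ∈ RigL_N z, d (x + (g / 9 : ℕ) - 4) (y + (g % 9 : ℕ) - 4) = 1 →
      d (x + (h / 9 : ℕ) - 4) (y + (h % 9 : ℕ) - 4) = 1 → g = h
  simp only [← hw, hmem]
  refine ⟨?_, ?_⟩
  · by_contra hcon
    push Not at hcon
    have g0 := hcon z (by simp)
    have g1 := hcon (z - 9) (by simp)
    have g2 := hcon (z + 9) (by simp)
    have g3 := hcon (z - 1) (by simp)
    have g4 := hcon (z + 1) (by simp)
    omega
  · rintro g (rfl | rfl | rfl | rfl | rfl) g' (rfl | rfl | rfl | rfl | rfl) u1 u2
    all_goals first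
      | rfl
      | (exfalso; omega)

theorem rigL : RigLStmt := by
  intro d x y hd h
  obtain ⟨s, c, hs, hc4, hk⟩ := RigL_pattern _ (RigL_one d x y hd h)
  refine ⟨(s : ℤ), ((c : ℤ) + x - 4 + s * (y - 4)) % 5, ?_, ?_, ?_, ?_⟩
  · omega
  · omega
  · omega
  · intro i j h1 h2 h3 h4
    obtain ⟨q, hq⟩ : ∃ q : Fin 5, ((q : ℕ) : ℤ) = i - x + 2 :=
      ⟨⟨(i - x + 2).toNat, by omega⟩, by simp; omega⟩
    obtain ⟨r, hr⟩ : ∃ r : Fin 5, ((r : ℕ) : ℤ) = j - y + 2 :=
      ⟨⟨(j - y + 2).toNat, by omega⟩, by simp; omega⟩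
    have hm := hk _ (RigL_C_mem q r)
    have hq5 := q.2
    have hr5 := r.2
    have e1 : (9 * ((q : ℕ) + 2) + ((r : ℕ) + 2)) / 9 = (q : ℕ) + 2 := by omega
    have e2 : (9 * ((q : ℕ) + 2) + ((r : ℕ) + 2)) % 9 = (r : ℕ) + 2 := by omega
    simp only [e1, e2] at hm
    have e3 : x + (((q : ℕ) + 2 : ℕ) : ℤ) - 4 = i := by
      push_cast
      omega
    have e4 : y + (((r : ℕ) + 2 : ℕ) : ℤ) - 4 = j := by
      push_cast
      omega
    rw [e3, e4] at hm
    rw [hm]
    rcases hs with rfl | rfl
    · push_cast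
      omega
    · push_cast
      omega

end PatGap
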