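import Pool.Agent.H.MP_b28609_co.Gap.Asmb
import Pool.Agent.H.MP_b28609_co.Gap.Asm
import Pool.Agent.H.MP_b28609_co.Gap.RigL
import Pool.Agent.H.MP_b28609_co.Gap.RigG
import Pool.Agent.H.MP_b28609_co.Gap.Disp
import Pool.Agent.H.MP_b28609_co.Gap.FluxA
import Pool.Agent.H.MP_b28609_co.Gap.FluxC
import Pool.Agent.H.MP_b28609_co.Gap.FluxD
import Pool.Agent.H.MP_b28609_co.Gap.Band
import Pool.Agent.H.MP_b28609_co.Gap.Cross
import Pool.Agent.H.MP_b28609_co.Gap.Fin
import Pool.Agent.H.MP_b28609_co.Gap.Grid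
import Pool.Agent.H.MP_b28609_co.Gap.Upper

/-!
# MP_b28609_co, gap theorem: main theorem from the side strip
-/

set_option autoImplicit false

namespace PatGap

open PatDom

/-- The gap theorem, given the potential of the side strip. -/
theorem gap_of_side (hS : SideStmt) (m n : ℕ) (hm : 1 ≤ m) (hn : 1 ≤ n) (hmn : 2 ≤ m * n) :
    ((min m n : ℕ) : ℝ) / 2400 - 51 ≤ (pnum (grid m n) : ℝ) - dnum (grid m n) ∧
      (pnum (grid m n) : ℝ) - dnum (grid m n) ≤ ((min m n : ℕ) : ℝ) / 5 + 51 :=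
  gap_of
    (fin hS asm (cross (band (rigG rigL) disp mvInv (fluxD fluxA fluxB fluxC))))
    (base hS asm) (fun D => ind D) (fun D h => ind_dom D h) (fun D => ind_tot D)
    (fun D D' φ h => ind_mv D D' φ h) dnum_grid_le dnum_succ_le m n hm hn hmn

end PatGap
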