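import Pool.Agent.H.MP_b28609_co.Gap.Stmt2

/-!
# MP_b28609_co, gap theorem, second part: reflection, counting a residue class
-/

set_option autoImplicit false

namespace PatGap

private theorem ref_a (n : ℤ) (d : ℤ → ℤ → ℤ) (i j : ℤ) :
    a (rf n d) i j = a d i (n + 1 - j) := by
  unfold a rf
  have h1 : n + 1 - (j - 1) = n + 1 - j + 1 := by ring
  have h2 : n + 1 - (j + 1) = n + 1 - j - 1 := by ring
  rw [h1, h2]
  ring

theorem ref : RefStmt := by
  intro m n w d hd hw hwn
  obtain ⟨hb, hs, hdom⟩ := hd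
  refine ⟨⟨fun i j => hb i (n + 1 - j), fun i j hij => hs i (n + 1 - j) fun h => hij ?_,
    fun i j h1 h2 h3 h4 => ?_⟩, ?_, fun j => rfl⟩
  · exact ⟨h.1, h.2.1, by omega, by omega⟩
  · rw [ref_a]
    exact hdom i (n + 1 - j) h1 h2 (by omega) (by omega)
  · unfold tot
    rw [← Finset.sum_add_distrib]
    refine Finset.sum_congr rfl fun i _ => ?_
    have h1 : Finset.Icc (1 : ℤ) n = Finset.Icc (1 : ℤ) w ∪ Finset.Icc (w + 1) n := by
      ext x
      rw [Finset.mem_union, Finset.mem_Icc, Finset.mem_Icc, Finset.mem_Icc]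
      omega
    have h2 : Disjoint (Finset.Icc (1 : ℤ) w) (Finset.Icc (w + 1) n) := by
      rw [Finset.disjoint_left]
      intro x hx hx'
      rw [Finset.mem_Icc] at hx hx'
      omega
    rw [h1, Finset.sum_union h2]
    congr 1
    refine Finset.sum_nbij' (fun x => n + 1 - x) (fun x => n + 1 - x) ?_ ?_ ?_ ?_ ?_
    · intro x hx
      rw [Finset.mem_Icc] at hx ⊢
      omega
    · intro x hx
      rw [Finset.mem_Icc] at hx ⊢
      omega
    · intro x _
      ring
    · intro x _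
      ring
    · intro x _
      show d i x = d i (n + 1 - (n + 1 - x))
      congr 1
      ring

private theorem cnt_tel (e : ℤ → ℤ) (t r : ℤ) (he : ∀ i, e i = 0 ∨ e i = 1) (L : ℕ)
    (h : ∀ i, r ≤ i → i < r + L → (e i = 1 ↔ (i - t) % 5 = 0)) :
    ∑ i ∈ Finset.Icc r (r + L - 1), (5 * e i - 1) = (r - t - 1) % 5 - (r + L - t - 1) % 5 := by
  induction L with
  | zero =>
    have h1 : Finset.Icc r (r + ((0 : ℕ) : ℤ) - 1) = ∅ := by
      rw [Finset.Icc_eq_empty]
      push_cast
      omega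
    rw [h1, Finset.sum_empty]
    push_cast
    rw [add_zero, sub_self]
  | succ L ih =>
    have h1 : Finset.Icc r (r + ((L + 1 : ℕ) : ℤ) - 1) =
        insert (r + (L : ℤ)) (Finset.Icc r (r + (L : ℤ) - 1)) := by
      ext x
      rw [Finset.mem_insert, Finset.mem_Icc, Finset.mem_Icc]
      push_cast
      omega
    have h2 : r + (L : ℤ) ∉ Finset.Icc r (r + (L : ℤ) - 1) := by
      rw [Finset.mem_Icc]
      omega
    rw [h1, Finset.sum_insert h2, ih fun i hi1 hi2 => h i hi1 (by push_cast; omega)]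
    have h3 := h (r + L) (by omega) (by push_cast; omega)
    push_cast
    rcases he (r + L) with h4 | h4
    · have h5 : ¬ (r + (L : ℤ) - t) % 5 = 0 := fun h6 => by
        have := h3.2 h6
        omega
      rw [h4]
      omega
    · have h5 := h3.1 h4
      rw [h4]
      omega

theorem cnt : CntStmt := by
  intro e s b c r1 r2 hs hc0 hc4 he hr h
  obtain ⟨t, ht⟩ : ∃ t : ℤ, ∀ i, ((b + s * i) % 5 = c ↔ (i - t) % 5 = 0) := by
    rcases hs with rfl | rfl
    · exact ⟨3 * (c - b), fun i => by omega⟩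
    · exact ⟨2 * (c - b), fun i => by omega⟩
  obtain ⟨L, hL⟩ : ∃ L : ℕ, (L : ℤ) = r2 - r1 + 1 := ⟨(r2 - r1 + 1).toNat, by omega⟩
  have h1 := cnt_tel e t r1 he L fun i hi1 hi2 => (h i hi1 (by omega)).trans (ht i)
  have h2 : r1 + (L : ℤ) - 1 = r2 := by omega
  rw [h2, Finset.sum_sub_distrib, ← Finset.mul_sum, Finset.sum_const, Int.card_Icc,
    nsmul_eq_mul, mul_one] at h1
  have h3 : (((r2 + 1 - r1).toNat : ℕ) : ℤ) = r2 - r1 + 1 := by omega
  rw [h3] at h1
  constructor <;> omega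

end PatGap
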