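import Pool.Agent.H.MP_b28609_co.Gap.Side.Geo
import Pool.Agent.H.MP_b28609_co.Gap.Side.Tab

/-!
# MP_b28609_co, gap theorem: module Side
-/

set_option autoImplicit false

namespace PatGap

theorem side : SideStmt := Side.geo Side.tab

end PatGap
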